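import Pool.Agent.LibBE35.CL2

/-! The area of a neighbourhood of a geodesic segment, uniformly in a family of metrics. -/

open MeasureTheory Set Filter Topology
open scoped ContDiff

namespace BGM

open BGS

variable {Γ : Type} [Group Γ] [MulAction Γ Pl] {D : Set Pl}
variable {m : Pl → Co} {k : ℝ} {E V : Pl → Pl → Pl} {F : Pl → Pl → ℝ → ℝ}

/-- The distance bounds the Euclidean distance, locally. -/
theorem CL_low (h : Had m k E V F) {K : Set Pl} (hK : IsCompact K) : ∃ C : ℝ, 1 ≤ C ∧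
    ∀ x ∈ K, ∀ y : Pl, ds m x y ≤ 1 → dist x y ≤ C * ds m x y := by
  have hcont : Continuous fun q : Pl × Pl => fderiv ℝ (E q.1) q.2 := by
    have h1 : ContDiff ℝ 1 (Function.uncurry fun (a : Pl) (v : Pl) => E a v) := by
      have := h.smE.of_le (show (1 : WithTop ℕ∞) ≤ ∞ by exact_mod_cast le_top)
      exact this
    have h2 : ContDiff ℝ 0 fun q : Pl × Pl => fderiv ℝ (E q.1) q.2 :=
      ContDiff.fderiv (f := fun (q : Pl × Pl) (v : Pl) => E q.1 v) (g := fun q => q.2) (n := 0)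
        (h1.comp ((contDiff_fst.comp contDiff_fst).prodMk contDiff_snd)) contDiff_snd (by norm_num)
    exact h2.continuous
  obtain ⟨C, hC⟩ := (hK.prod (isCompact_closedBall (0 : Pl) 1)).exists_bound_of_continuousOn
    hcont.continuousOn
  refine ⟨max C 1, le_max_right _ _, fun x hx y hxy => ?_⟩
  have hd : ds m x y = eu (V x y) := ds_eq h x y
  have hv : ‖V x y‖ ≤ 1 := (norm_le_eu _).trans (by rw [← hd]; exact hxy)
  have hsm := (A3_smooth h x).1
  have hmv := (convex_closedBall (0 : Pl) 1).norm_image_sub_le_of_norm_fderiv_le (𝕜 := ℝ)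
    (f := E x) (C := C) (x := 0) (y := V x y)
    (fun z _ => (hsm.differentiable (by simp)).differentiableAt)
    (fun z hz => hC (x, z) ⟨hx, hz⟩) (by simp) (by simpa using hv)
  rw [h.EV, h.E0, sub_zero] at hmv
  rw [dist_comm, dist_eq_norm, hd]
  refine hmv.trans ?_
  exact mul_le_mul (le_max_left _ _) (norm_le_eu _) (norm_nonneg _)
    (zero_le_one.trans (le_max_right _ _))

/-- **Area of a neighbourhood of a segment.** -/
theorem CL_area (hX : Surface Γ D) (h1 : H1 Γ) (hm : Rp m) (hi : Iv Γ m)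
    (hn : ∀ z, curv m z < 0) (B : ℝ) {k : ℝ} (hk : 0 < k) : ∃ C : ℝ, 1 ≤ C ∧
    ∀ σ : Pl → ℝ, ContDiff ℝ ∞ σ → (∀ (γ : Γ) (z : Pl), σ (γ • z) = σ z) → (∀ z, |σ z| ≤ B) →
      (∀ z, -k ^ 2 ≤ curv (cf σ m) z ∧ curv (cf σ m) z < 0) →
      ∀ l ε : ℝ, 1 ≤ l → 0 < ε → C * ε ≤ 1 → ∀ a b : Pl, ds (cf σ m) a b ≤ l →
        volume {x : Pl | x ∈ closure D ∧ ∃ z ∈ Seg (cf σ m) a b, ∃ γ : Γ,
          ds (cf σ m) x (γ • z) ≤ ε} ≤ ENNReal.ofReal (C * l * ε) := by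
  obtain ⟨k₀, hk₀, hK₀⟩ := E2_base hX hm hi
  obtain ⟨E, V, F, h⟩ := h1 k₀ m hk₀ hm hi fun z => ⟨hK₀ z, hn z⟩
  obtain ⟨hDc, z₀, hz₀⟩ := B1_dom hX
  obtain ⟨C₁, hC₁, hlow⟩ := CL_low h hDc
  obtain ⟨R, hR⟩ := (hDc.prod hDc).exists_bound_of_continuousOn (ds_continuous h).continuousOn
  obtain ⟨N, hN⟩ := B1_loc hX hi h (R + 1)
  obtain ⟨q, hq⟩ : ∃ q : ℝ, q = Real.exp (B / 2) := ⟨_, rfl⟩
  have hq0 : 0 < q := by rw [hq]; exact Real.exp_pos _
  obtain ⟨C₂, hC₂⟩ : ∃ C₂ : ℝ, C₂ = C₁ * (2 * q) := ⟨_, rfl⟩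
  have hC₂0 : 0 < C₂ := by rw [hC₂]; positivity
  refine ⟨1 + 2 * q + 8 * N * C₂ ^ 2, by
    have : 0 ≤ 8 * N * C₂ ^ 2 := by positivity
    linarith, fun σ hσ hσi hσB hσK l ε hl hε hεC a b hab => ?_⟩
  have hm' : Rp (cf σ m) := D1_rp hm hσ
  have hi' : Iv Γ (cf σ m) := D1_iv hi hσi
  obtain ⟨E', V', F', h'⟩ := h1 k (cf σ m) hk hm' hi' hσK
  have hqε : 2 * q * ε ≤ 1 := by
    have h0 : 0 ≤ (1 + 8 * N * C₂ ^ 2) * ε := by positivity
    nlinarith
  have hε1 : ε ≤ 1 := by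
    have h0 : 0 ≤ (2 * q + 8 * N * C₂ ^ 2) * ε := by positivity
    nlinarith
  have hle : ∀ z w, ds m z w ≤ q * ds (cf σ m) z w := by
    intro z w
    have := D1_ds (f := fun _ => 0) (f' := σ) hm contDiff_const hσ (ε := B) (fun z => by
      have := (abs_le.1 (hσB z)).1
      linarith) z w
    rwa [D1_zero, ← hq] at this
  obtain ⟨c, hc, hc0, hc1⟩ := A6_exists h' a b
  have hl0 : 0 < l := by linarith
  -- the centres
  let P : ℕ → Set Γ := fun j => {γ | ds m (γ • c (j * ε)) z₀ ≤ R + 1}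
  have hPf : ∀ j, (P j).Finite := fun j => (hN _ _).1
  have hPn : ∀ j, (P j).ncard ≤ N := fun j => (hN _ _).2
  let n : ℕ := ⌊l / ε⌋₊ + 1
  have hsub : {x : Pl | x ∈ closure D ∧ ∃ z ∈ Seg (cf σ m) a b, ∃ γ : Γ,
      ds (cf σ m) x (γ • z) ≤ ε} ⊆ ⋃ j ∈ Finset.range n, ⋃ γ ∈ (hPf j).toFinset,
        Metric.closedBall (γ • c (j * ε)) (C₂ * ε) := by
    rintro x ⟨hx, z, hz, γ, hxz⟩
    have hz' : z ∈ Seg (cf σ m) (c 0) (c (ds (cf σ m) a b)) := by rw [hc0, hc1]; exact hz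
    obtain ⟨s, hs0, hs1, rfl⟩ := CL_seg h' hc (ds_nonneg _ _ _) hz'
    obtain ⟨j, hj⟩ : ∃ j : ℕ, j = ⌊s / ε⌋₊ := ⟨_, rfl⟩
    have hj1 : (j : ℝ) * ε ≤ s := by
      rw [← le_div_iff₀ hε, hj]
      exact Nat.floor_le (by positivity)
    have hj2 : s < (j + 1) * ε := by
      rw [← div_lt_iff₀ hε, hj]
      exact Nat.lt_floor_add_one _
    have hjn : j < n := by
      have : j ≤ ⌊l / ε⌋₊ := by
        rw [hj]
        apply Nat.floor_le_floor
        exact div_le_div_of_nonneg_right (hs1.trans hab) hε.le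
      show j < ⌊l / ε⌋₊ + 1
      omega
    have hd1 : ds (cf σ m) (γ • c s) (γ • c (j * ε)) ≤ ε := by
      rw [B1_ds hX hi', hc]
      rw [abs_of_nonneg (by linarith)]
      linarith
    have hd2 : ds (cf σ m) x (γ • c (j * ε)) ≤ 2 * ε := by
      have := ds_tri hm' x (γ • c s) (γ • c (j * ε))
      linarith
    have hd3 : ds m x (γ • c (j * ε)) ≤ 2 * q * ε := by
      refine (hle _ _).trans ?_
      have := mul_le_mul_of_nonneg_left hd2 hq0.le
      linarith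
    have hd4 := hlow x hx (γ • c (j * ε)) (hd3.trans hqε)
    simp only [mem_iUnion, Finset.mem_range, exists_prop]
    refine ⟨j, hjn, γ, ?_, ?_⟩
    · rw [Set.Finite.mem_toFinset]
      show ds m (γ • c (j * ε)) z₀ ≤ R + 1
      have h5 := ds_tri hm (γ • c (j * ε)) x z₀
      have h6 : ds m x z₀ ≤ R := (le_abs_self _).trans (hR (x, z₀) ⟨hx, hz₀⟩)
      rw [ds_symm hm (γ • c (j * ε)) x] at h5
      linarith
    · rw [Metric.mem_closedBall]
      refine hd4.trans ?_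
      rw [hC₂]
      have := mul_le_mul_of_nonneg_left hd3 (show 0 ≤ C₁ by linarith)
      linarith
  refine (measure_mono hsub).trans ?_
  have hball : ∀ (y : Pl), volume (Metric.closedBall y (C₂ * ε)) = ENNReal.ofReal (4 * C₂ ^ 2 * ε ^ 2) := by
    intro y
    have : Metric.closedBall y (C₂ * ε) = Metric.closedBall y.1 (C₂ * ε) ×ˢ Metric.closedBall y.2 (C₂ * ε) :=
      (closedBall_prod_same _ _ _).symm
    rw [this, Measure.volume_eq_prod, Measure.prod_prod, Real.volume_closedBall, Real.volume_closedBall,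
      ← ENNReal.ofReal_mul (by positivity)]
    congr 1
    ring
  have hv : 0 ≤ 4 * C₂ ^ 2 * ε ^ 2 := by positivity
  refine (measure_biUnion_finset_le _ _).trans ?_
  have hj : ∀ j ∈ Finset.range n, volume (⋃ γ ∈ (hPf j).toFinset,
        Metric.closedBall (γ • c (j * ε)) (C₂ * ε)) ≤ ENNReal.ofReal (N * (4 * C₂ ^ 2 * ε ^ 2)) := by
    intro j _
    refine (measure_biUnion_finset_le _ _).trans ?_
    simp only [hball]
    rw [Finset.sum_const, nsmul_eq_mul, ← ENNReal.ofReal_natCast, ← ENNReal.ofReal_mul (Nat.cast_nonneg _)]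
    apply ENNReal.ofReal_le_ofReal
    apply mul_le_mul_of_nonneg_right _ hv
    have := hPn j
    rw [Set.ncard_eq_toFinset_card _ (hPf j)] at this
    exact_mod_cast this
  refine (Finset.sum_le_sum hj).trans ?_
  rw [Finset.sum_const, Finset.card_range, nsmul_eq_mul, ← ENNReal.ofReal_natCast,
    ← ENNReal.ofReal_mul (Nat.cast_nonneg _)]
  apply ENNReal.ofReal_le_ofReal
  have hn1 : (n : ℝ) * ε ≤ 2 * l := by
    have h7 : ((⌊l / ε⌋₊ : ℕ) : ℝ) ≤ l / ε := Nat.floor_le (by positivity)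
    have h8 : (n : ℝ) ≤ l / ε + 1 := by
      show ((⌊l / ε⌋₊ + 1 : ℕ) : ℝ) ≤ _
      push_cast
      linarith
    have h9 : (n : ℝ) * ε ≤ (l / ε + 1) * ε := mul_le_mul_of_nonneg_right h8 hε.le
    have h10 : (l / ε + 1) * ε = l + ε := by field_simp
    linarith
  have e1 : (n : ℝ) * (N * (4 * C₂ ^ 2 * ε ^ 2)) = (n * ε) * (4 * N * C₂ ^ 2 * ε) := by ring
  rw [e1]
  have e2 : (n * ε) * (4 * N * C₂ ^ 2 * ε) ≤ (2 * l) * (4 * N * C₂ ^ 2 * ε) :=
    mul_le_mul_of_nonneg_right hn1 (by positivity)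
  have e3 : 0 ≤ (1 + 2 * q) * l * ε := by positivity
  nlinarith

end BGM
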