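import Pool.Agent.LibBGM20.A8c
import Pool.Agent.LibBGM20.B1p

/-! Counting lemma, one metric.  A geodesic segment which stays close to the translates of another
one is determined by few data. -/

open MeasureTheory Set Filter Topology
open scoped ContDiff

namespace BGM

open BGS

/-- The geodesic segment from `a` to `b`. -/
def Seg (m : Pl → Co) (a b : Pl) : Set Pl := {z | ds m a z + ds m z b = ds m a b}

/-- The segment from `a` to `b` stays within `ε` of the translates of the segment from `a'` to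
`b'`. -/
def Fol (Γ : Type) [Group Γ] [MulAction Γ Pl] (m : Pl → Co) (ε : ℝ) (a b a' b' : Pl) : Prop :=
  ∀ z ∈ Seg m a b, ∃ γ : Γ, ∃ w ∈ Seg m a' b', ds m z (γ • w) ≤ ε

variable {Γ : Type} [Group Γ] [MulAction Γ Pl] {D : Set Pl}
variable {m : Pl → Co} {k : ℝ} {E V : Pl → Pl → Pl} {F : Pl → Pl → ℝ → ℝ}

/-- The points of a segment. -/
theorem CL_seg (h : Had m k E V F) {c : ℝ → Pl} (hc : IsLine m c) {l : ℝ} (hl : 0 ≤ l) {z : Pl}
    (hz : z ∈ Seg m (c 0) (c l)) : ∃ s, 0 ≤ s ∧ s ≤ l ∧ z = c s := by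
  have hd : ds m (c 0) (c l) = l := by
    rw [hc, zero_sub, abs_neg, abs_of_nonneg hl]
  have hz' : ds m (c 0) z + ds m z (c l) = ds m (c 0) (c l) := hz
  have h1 := ds_nonneg m (c 0) z
  have h2 := ds_nonneg m z (c l)
  rcases hl.eq_or_lt with h0 | h0
  · subst h0
    refine ⟨0, le_rfl, le_rfl, ?_⟩
    rw [hd] at hz'
    have : ds m (c 0) z = 0 := by linarith
    exact ((ds_eq_zero h).1 this).symm
  · refine ⟨ds m (c 0) z, h1, by linarith, ?_⟩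
    have := A6_mem h hc h0 hz'
    rwa [zero_add] at this

/-- The points of a line are on the segments. -/
theorem CL_mem {c : ℝ → Pl} (hc : IsLine m c) {l t : ℝ} (ht : 0 ≤ t) (htl : t ≤ l) :
    c t ∈ Seg m (c 0) (c l) := by
  show ds m (c 0) (c t) + ds m (c t) (c l) = ds m (c 0) (c l)
  rw [hc, hc, hc, zero_sub, abs_neg, abs_of_nonneg ht, zero_sub, abs_neg,
    abs_of_nonneg (ht.trans htl), abs_sub_comm, abs_of_nonneg (by linarith)]
  ring

/-- The strands near a point. -/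
def Str (Γ : Type) [Group Γ] [MulAction Γ Pl] (m : Pl → Co) (c' : ℝ → Pl) (L : ℕ) (q : Pl) :
    Set Γ := {γ | ∃ n : ℕ, n ≤ L ∧ ds m (γ • c' n) q ≤ 3}

theorem CL_str {N : ℕ} (hN : ∀ x y : Pl, {g : Γ | ds m (g • x) y ≤ 3}.Finite ∧
      {g : Γ | ds m (g • x) y ≤ 3}.ncard ≤ N) (c' : ℝ → Pl) (L : ℕ) (q : Pl) :
    (Str Γ m c' L q).Finite ∧ (Str Γ m c' L q).ncard ≤ N * (L + 1) := by
  have e : Str Γ m c' L q = ⋃ n ∈ Finset.range (L + 1), {g : Γ | ds m (g • c' (n : ℝ)) q ≤ 3} := by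
    ext γ
    simp only [Str, mem_ofPred_eq, mem_iUnion, Finset.mem_range, exists_prop]
    constructor
    · rintro ⟨n, hn, h⟩
      exact ⟨n, by omega, h⟩
    · rintro ⟨n, hn, h⟩
      exact ⟨n, by omega, h⟩
  have hf : ∀ n ∈ Finset.range (L + 1), {g : Γ | ds m (g • c' (n : ℝ)) q ≤ 3}.Finite :=
    fun n _ => (hN _ _).1
  constructor
  · rw [e]
    exact Set.Finite.biUnion (Finset.range (L + 1)).finite_toSet hf
  · rw [e]
    refine (Finset.set_ncard_biUnion_le _ _).trans ?_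
    refine (Finset.sum_le_sum fun n _ => (hN _ _).2).trans ?_
    rw [Finset.sum_const, Finset.card_range, smul_eq_mul, mul_comm]

/-- One step: a line which follows the translates of a segment for a unit of time is close to one of
few lines for a long time. -/
theorem CL_step (hX : Surface Γ D) (hi : Iv Γ m) (h : Had m k E V F) {c' : ℝ → Pl}
    (hc' : IsLine m c') {L M : ℕ} (hM : 1 ≤ M) {ε η : ℝ} {p : ℕ} {q : Pl}
    (hS : (Str Γ m c' L q).Finite ∧ (Str Γ m c' L q).ncard ≤ M) (hε : ε ≤ 1 / 2)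
    (hεM : 2 * ε * M < 1) (hεη : 7 * ε * M * (Real.sinh (k * (p + 3)) / k) ≤ η)
    {c : ℝ → Pl} (hc : IsLine m c) {t₀ : ℝ}
    (hf : ∀ t, t₀ ≤ t → t ≤ t₀ + 1 → ∃ γ : Γ, ∃ s : ℝ, 0 ≤ s ∧ s ≤ L ∧ ds m (c t) (γ • c' s) ≤ ε)
    (hq : ds m (c t₀) q ≤ 1 / 2) :
    ∃ γ ∈ Str Γ m c' L q, ∀ t, t₀ ≤ t → t ≤ t₀ + (p + 1) →
      ∃ u : ℝ, -((p : ℝ) + 1) ≤ u ∧ u ≤ L + (p + 1) ∧ ds m (c t) (γ • c' u) ≤ η := by
  classical
  have hk := h.kpos
  have hM0 : (0 : ℝ) < M := by exact_mod_cast hM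
  obtain ⟨tm, htm⟩ : ∃ tm : Fin (M + 1) → ℝ, tm = fun i : Fin (M + 1) => t₀ + ((i : ℕ) : ℝ) / M := ⟨_, rfl⟩
  have htm0 : ∀ i, t₀ ≤ tm i ∧ tm i ≤ t₀ + 1 := by
    intro i
    have h1 : ((i : ℕ) : ℝ) ≤ M := by exact_mod_cast Nat.lt_succ_iff.1 i.2
    have h2 : ((i : ℕ) : ℝ) / M ≤ 1 := by rw [div_le_one hM0]; exact h1
    have h3 : 0 ≤ ((i : ℕ) : ℝ) / M := by positivity
    rw [htm]
    constructor
    · show t₀ ≤ t₀ + ((i : ℕ) : ℝ) / M
      linarith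
    · show t₀ + ((i : ℕ) : ℝ) / M ≤ t₀ + 1
      linarith
  choose γ s hs0 hsL hd using fun i => hf (tm i) (htm0 i).1 (htm0 i).2
  have hmem : ∀ i, γ i ∈ Str Γ m c' L q := by
    intro i
    have hfl : ((⌊s i⌋₊ : ℕ) : ℝ) ≤ s i := Nat.floor_le (hs0 i)
    have hfl' : s i < (⌊s i⌋₊ : ℕ) + 1 := Nat.lt_floor_add_one _
    refine ⟨⌊s i⌋₊, ?_, ?_⟩
    · have : ((⌊s i⌋₊ : ℕ) : ℝ) ≤ L := hfl.trans (hsL i)
      exact_mod_cast this
    · have t1 := ds_tri h.rp (γ i • c' (⌊s i⌋₊ : ℕ)) (γ i • c' (s i)) q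
      have t2 := ds_tri h.rp (γ i • c' (s i)) (c (tm i)) q
      have t3 := ds_tri h.rp (c (tm i)) (c t₀) q
      have e1 : ds m (γ i • c' (⌊s i⌋₊ : ℕ)) (γ i • c' (s i)) ≤ 1 := by
        rw [B1_ds hX hi, hc', abs_sub_comm, abs_of_nonneg (by linarith)]
        linarith
      have e2 : ds m (γ i • c' (s i)) (c (tm i)) ≤ 1 / 2 := by
        rw [ds_symm h.rp]
        exact (hd i).trans hε
      have e3 : ds m (c (tm i)) (c t₀) ≤ 1 := by
        rw [hc, abs_of_nonneg (by linarith [(htm0 i).1])]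
        linarith [(htm0 i).2]
      linarith
  obtain ⟨i, -, j, -, hij, hγ⟩ : ∃ i ∈ (Finset.univ : Finset (Fin (M + 1))), ∃ j ∈ (Finset.univ : Finset (Fin (M + 1))),
      i ≠ j ∧ γ i = γ j := by
    refine Finset.exists_ne_map_eq_of_card_lt_of_maps_to (t := hS.1.toFinset) ?_ fun i _ => ?_
    · rw [← Set.ncard_eq_toFinset_card _ hS.1, Finset.card_univ, Fintype.card_fin]
      omega
    · rw [Finset.mem_coe, Set.Finite.mem_toFinset]
      exact hmem i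
  wlog hlt : i < j generalizing i j
  · exact this j i hij.symm hγ.symm (lt_of_le_of_ne (not_lt.1 hlt) hij.symm)
  have hgap : 1 / (M : ℝ) ≤ tm j - tm i := by
    rw [htm]
    show 1 / (M : ℝ) ≤ (t₀ + ((j : ℕ) : ℝ) / M) - (t₀ + ((i : ℕ) : ℝ) / M)
    have h1 : ((i : ℕ) : ℝ) + 1 ≤ (j : ℕ) := by exact_mod_cast hlt
    have h2 : (t₀ + ((j : ℕ) : ℝ) / M) - (t₀ + ((i : ℕ) : ℝ) / M) = (((j : ℕ) : ℝ) - (i : ℕ)) / M := by ring
    rw [h2]
    gcongr
    linarith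
  have hM1 : 0 < 1 / (M : ℝ) := by positivity
  have hgap0 : tm i < tm j := by linarith
  have hgap1 : tm j - tm i ≤ 1 := by linarith [(htm0 i).1, (htm0 j).2]
  have hε2 : 2 * ε < tm j - tm i := by
    refine lt_of_lt_of_le ?_ hgap
    rw [lt_div_iff₀ hM0]
    exact hεM
  have hlγ := B1_line hX hi (γ i) hc'
  have hdj : ds m (c (tm j)) (γ i • c' (s j)) ≤ ε := by
    rw [hγ]
    exact hd j
  obtain ⟨σ, hσ, hcmp⟩ := A8_cmp h hc hlγ hgap0 hgap1 hε2 (hd i) hdj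
  have hε0 : 0 ≤ ε := (ds_nonneg _ _ _).trans (hd i)
  refine ⟨γ i, hmem i, fun t ht0 ht1 => ?_⟩
  obtain ⟨r, hr⟩ : ∃ r : ℝ, r = t - tm i := ⟨_, rfl⟩
  have hr1 : |r| ≤ p + 1 := by
    rw [abs_le]
    have h1 := htm0 i
    have hp : (0 : ℝ) ≤ p := Nat.cast_nonneg p
    constructor <;> linarith [h1.1, h1.2]
  have hσr : |σ * r| ≤ p + 1 := by
    rcases hσ with h1 | h1
    · rw [h1, one_mul]; exact hr1
    · rw [h1, neg_one_mul, abs_neg]; exact hr1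
  rw [abs_le] at hσr
  refine ⟨s i + σ * r, by linarith [hs0 i, hσr.1], by linarith [hsL i, hσr.2], ?_⟩
  have h1 := hcmp r
  have e1 : tm i + r = t := by rw [hr]; ring
  rw [e1] at h1
  refine h1.trans ?_
  have hsinh : Real.sinh (k * (|r| + 2)) ≤ Real.sinh (k * (p + 3)) := by
    rw [Real.sinh_le_sinh]
    apply mul_le_mul_of_nonneg_left _ hk.le
    linarith
  have hsinh0 : 0 ≤ Real.sinh (k * (|r| + 2)) := by
    rw [Real.sinh_nonneg_iff]
    have := abs_nonneg r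
    positivity
  calc 7 * ε * (Real.sinh (k * (|r| + 2)) / k) / (tm j - tm i)
      ≤ 7 * ε * (Real.sinh (k * (|r| + 2)) / k) / (1 / M) := by
        apply div_le_div_of_nonneg_left _ hM1 hgap
        positivity
    _ = 7 * ε * M * (Real.sinh (k * (|r| + 2)) / k) := by field_simp
    _ ≤ 7 * ε * M * (Real.sinh (k * (p + 3)) / k) := by gcongr
    _ ≤ η := hεη

/-- The next net points. -/
theorem CL_next (hX : Surface Γ D) (hi : Iv Γ m) (h : Had m k E V F) {c' : ℝ → Pl}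
    (hc' : IsLine m c') {L M : ℕ} (hM : 1 ≤ M) {ε η : ℝ} (hη : 0 < η) {p : ℕ} {W : ℕ}
    (hW : ((L : ℝ) + 2 * (p + 1)) / η + 3 ≤ W) (q : Pl)
    (hS : (Str Γ m c' L q).Finite ∧ (Str Γ m c' L q).ncard ≤ M) (hε : ε ≤ 1 / 2)
    (hεM : 2 * ε * M < 1) (hεη : 7 * ε * M * (Real.sinh (k * (p + 3)) / k) ≤ η) :
    ∃ P : Finset Pl, P.card ≤ M * W ∧ ∀ c : ℝ → Pl, IsLine m c → ∀ t₀ : ℝ,
      (∀ t, t₀ ≤ t → t ≤ t₀ + 1 → ∃ γ : Γ, ∃ s : ℝ, 0 ≤ s ∧ s ≤ L ∧ ds m (c t) (γ • c' s) ≤ ε) →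
      ds m (c t₀) q ≤ 1 / 2 → ∀ t, t₀ ≤ t → t ≤ t₀ + (p + 1) → ∃ z ∈ P, ds m (c t) z ≤ 2 * η := by
  classical
  obtain ⟨A, hA⟩ : ∃ A : ℤ, A = ⌊-((p : ℝ) + 1) / η⌋ := ⟨_, rfl⟩
  refine ⟨(hS.1.toFinset ×ˢ Finset.Ico A (A + W)).image fun r => r.1 • c' (η * r.2), ?_, ?_⟩
  · refine Finset.card_image_le.trans ?_
    rw [Finset.card_product, ← Set.ncard_eq_toFinset_card _ hS.1, Int.card_Ico]
    have : (A + (W : ℤ) - A).toNat = W := by simp
    rw [this]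
    exact Nat.mul_le_mul_right _ hS.2
  · intro c hc t₀ hf hq t ht0 ht1
    obtain ⟨γ, hγ, hall⟩ := CL_step hX hi h hc' hM hS hε hεM hεη hc hf hq
    obtain ⟨u, hu0, hu1, hu⟩ := hall t ht0 ht1
    obtain ⟨n, hn⟩ : ∃ n : ℤ, n = ⌊u / η⌋ := ⟨_, rfl⟩
    have hn1 : (n : ℝ) ≤ u / η := by rw [hn]; exact Int.floor_le _
    have hn2 : u / η < n + 1 := by rw [hn]; exact Int.lt_floor_add_one _
    have hA1 : (A : ℝ) ≤ -((p : ℝ) + 1) / η := by rw [hA]; exact Int.floor_le _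
    have hA2 : -((p : ℝ) + 1) / η < A + 1 := by rw [hA]; exact Int.lt_floor_add_one _
    refine ⟨γ • c' (η * n), ?_, ?_⟩
    · rw [Finset.mem_image]
      refine ⟨(γ, n), ?_, rfl⟩
      rw [Finset.mem_product, Set.Finite.mem_toFinset, Finset.mem_Ico]
      refine ⟨hγ, ?_, ?_⟩
      · rw [hA, hn]
        apply Int.floor_le_floor
        gcongr
      · have h1 : u / η ≤ ((L : ℝ) + (p + 1)) / η := by gcongr
        have h2 : ((L : ℝ) + 2 * (p + 1)) / η = ((L : ℝ) + (p + 1)) / η - (-((p : ℝ) + 1) / η) := by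
          field_simp
          ring
        have h3 : (n : ℝ) < A + W := by linarith
        exact_mod_cast h3
    · have t1 := ds_tri h.rp (c t) (γ • c' u) (γ • c' (η * n))
      have e1 : ds m (γ • c' u) (γ • c' (η * n)) ≤ η := by
        rw [B1_ds hX hi, hc']
        rw [le_div_iff₀ hη] at hn1
        rw [div_lt_iff₀ hη] at hn2
        rw [abs_of_nonneg (by linarith)]
        linarith
      linarith

/-- **Counting lemma, one metric.** -/
theorem CL_count (hX : Surface Γ D) (hi : Iv Γ m) (h : Had m k E V F) {r₀ : ℝ}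
    (hr : ∀ g : Γ, g ≠ 1 → ∀ z : Pl, r₀ ≤ ds m z (g • z)) {N : ℕ}
    (hN : ∀ x y : Pl, {g : Γ | ds m (g • x) y ≤ 3}.Finite ∧ {g : Γ | ds m (g • x) y ≤ 3}.ncard ≤ N)
    {L M W p J : ℕ} (hM : 1 ≤ M) (hNM : N * (L + 1) ≤ M) {ε η : ℝ} (hη : 0 < η) (hηr : 4 * η < r₀)
    (hη1 : η ≤ 1 / 4) (hW : ((L : ℝ) + 2 * (p + 1)) / η + 3 ≤ W) (hε : ε ≤ 1 / 2)
    (hεM : 2 * ε * M < 1) (hεη : 7 * ε * M * (Real.sinh (k * (p + 3)) / k) ≤ η)
    {l : ℝ} (hJ : l ≤ J * p) {x a b : Pl} (hab : ds m a b ≤ L) :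
    {g : Γ | ds m x (g • x) ≤ l ∧ Fol Γ m ε x (g • x) a b}.Finite ∧
      {g : Γ | ds m x (g • x) ≤ l ∧ Fol Γ m ε x (g • x) a b}.ncard ≤ N + (1 + M * W) ^ J := by
  classical
  obtain ⟨c', hc', hc0, hcl⟩ := A6_exists h a b
  have hab0 := ds_nonneg m a b
  have hS : ∀ q, (Str Γ m c' L q).Finite ∧ (Str Γ m c' L q).ncard ≤ M := fun q =>
    ⟨(CL_str hN c' L q).1, (CL_str hN c' L q).2.trans hNM⟩
  choose P hPc hP using fun q => CL_next hX hi h hc' hM hη hW q (hS q) hε hεM hεη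
  obtain ⟨R, hR0, hR1⟩ : ∃ R : ℕ → Finset Pl, R 0 = {x} ∧ ∀ j, R (j + 1) = R j ∪ (R j).biUnion P :=
    ⟨fun j => Nat.rec {x} (fun _ A => A ∪ A.biUnion P) j, rfl, fun _ => rfl⟩
  have hRc : ∀ j, (R j).card ≤ (1 + M * W) ^ j := by
    intro j
    induction j with
    | zero => rw [hR0]; simp
    | succ j ih =>
      rw [hR1]
      calc (R j ∪ (R j).biUnion P).card ≤ (R j).card + ((R j).biUnion P).card := Finset.card_union_le _ _
        _ ≤ (R j).card + (R j).card * (M * W) :=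
            Nat.add_le_add_left (Finset.card_biUnion_le_card_mul _ _ _ fun q _ => hPc q) _
        _ = (R j).card * (1 + M * W) := by ring
        _ ≤ (1 + M * W) ^ j * (1 + M * W) := Nat.mul_le_mul_right _ ih
        _ = _ := by rw [pow_succ]
  -- the long elements
  have hlong : ∀ g : Γ, 1 ≤ ds m x (g • x) → ds m x (g • x) ≤ l → Fol Γ m ε x (g • x) a b →
      ∃ z ∈ R J, ds m (g • x) z ≤ 2 * η := by
    intro g hg1 hgl hfol
    obtain ⟨c, hc, hcx, hcg⟩ := A6_exists h x (g • x)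
    obtain ⟨l₂, hl₂⟩ : ∃ l₂ : ℝ, l₂ = ds m x (g • x) := ⟨_, rfl⟩
    rw [← hl₂] at hcg hg1 hgl
    have hf : ∀ t, 0 ≤ t → t ≤ l₂ → ∃ γ : Γ, ∃ s : ℝ, 0 ≤ s ∧ s ≤ L ∧ ds m (c t) (γ • c' s) ≤ ε := by
      intro t ht0 htl
      have hmem : c t ∈ Seg m x (g • x) := by
        have := CL_mem hc ht0 htl
        rwa [hcx, hcg] at this
      obtain ⟨γ, w, hw, hwd⟩ := hfol _ hmem
      have hw' : w ∈ Seg m (c' 0) (c' (ds m a b)) := by rw [hc0, hcl]; exact hw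
      obtain ⟨s, hs0, hs1, rfl⟩ := CL_seg h hc' hab0 hw'
      exact ⟨γ, s, hs0, hs1.trans hab, hwd⟩
    have key : ∀ j : ℕ, ∀ t, 0 ≤ t → t ≤ l₂ → t ≤ j * p → ∃ z ∈ R j, ds m (c t) z ≤ 2 * η := by
      intro j
      induction j with
      | zero =>
        intro t ht0 _ ht
        have : t = 0 := by
          simp at ht
          linarith
        refine ⟨x, by rw [hR0]; simp, ?_⟩
        rw [this, hcx, ds_self h.rp]
        positivity
      | succ j ih =>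
        intro t ht0 htl ht
        rcases le_or_gt t (j * p) with h1 | h1
        · obtain ⟨z, hz, hd⟩ := ih t ht0 htl h1
          exact ⟨z, by rw [hR1]; exact Finset.mem_union_left _ hz, hd⟩
        · obtain ⟨t₀, ht₀⟩ : ∃ t₀ : ℝ, t₀ = min ((j : ℝ) * p) (l₂ - 1) := ⟨_, rfl⟩
          have hjp : (0 : ℝ) ≤ (j : ℝ) * p := by positivity
          have b1 : t₀ ≤ (j : ℝ) * p := by rw [ht₀]; exact min_le_left _ _
          have b2 : t₀ ≤ l₂ - 1 := by rw [ht₀]; exact min_le_right _ _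
          have b3 : 0 ≤ t₀ := by rw [ht₀]; exact le_min hjp (by linarith)
          obtain ⟨q, hq, hqd⟩ := ih t₀ b3 (by linarith) b1
          have hp0 : (0 : ℝ) ≤ p := Nat.cast_nonneg p
          have b4 : t ≤ t₀ + (p + 1) := by
            push_cast at ht
            rcases min_choice ((j : ℝ) * p) (l₂ - 1) with h2 | h2
            · rw [← ht₀] at h2; rw [h2]; linarith
            · rw [← ht₀] at h2; rw [h2]; linarith
          obtain ⟨z, hz, hzd⟩ := hP q c hc t₀ (fun s hs0 hs1 => hf s (b3.trans hs0) (by linarith))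
            (by linarith) t (by linarith) b4
          refine ⟨z, ?_, hzd⟩
          rw [hR1]
          exact Finset.mem_union_right _ (Finset.mem_biUnion.2 ⟨q, hq, hz⟩)
    have := key J l₂ (by linarith) le_rfl (hgl.trans hJ)
    rwa [hcg] at this
  -- the two parts
  obtain ⟨S, hSdef⟩ : ∃ S : Set Γ, S = {g : Γ | ds m x (g • x) ≤ l ∧ Fol Γ m ε x (g • x) a b} := ⟨_, rfl⟩
  rw [← hSdef]
  obtain ⟨S₁, hS₁⟩ : ∃ S₁ : Set Γ, S₁ = {g : Γ | ds m (g • x) x ≤ 3} := ⟨_, rfl⟩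
  obtain ⟨S₂, hS₂⟩ : ∃ S₂ : Set Γ, S₂ = {g : Γ | 1 ≤ ds m x (g • x) ∧ ds m x (g • x) ≤ l ∧ Fol Γ m ε x (g • x) a b} := ⟨_, rfl⟩
  have hsub : S ⊆ S₁ ∪ S₂ := by
    intro g hg
    rw [hSdef] at hg
    rcases le_or_gt 1 (ds m x (g • x)) with h1 | h1
    · right; rw [hS₂]; exact ⟨h1, hg⟩
    · left; rw [hS₁]
      show ds m (g • x) x ≤ 3
      rw [ds_symm h.rp]
      linarith
  have hS₁f : S₁.Finite ∧ S₁.ncard ≤ N := by rw [hS₁]; exact hN x x
  choose! f hfm hfd using hlong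
  have hmaps : Set.MapsTo f S₂ (R J : Set Pl) := by
    intro g hg
    rw [hS₂] at hg
    exact hfm g hg.1 hg.2.1 hg.2.2
  have hinj : Set.InjOn f S₂ := by
    intro g hg g' hg' he
    rw [hS₂] at hg hg'
    have d1 := hfd g hg.1 hg.2.1 hg.2.2
    have d2 := hfd g' hg'.1 hg'.2.1 hg'.2.2
    rw [← he] at d2
    have t1 := ds_tri h.rp (g • x) (f g) (g' • x)
    rw [ds_symm h.rp (f g) (g' • x)] at t1
    by_contra hne
    have hne' : g⁻¹ * g' ≠ 1 := by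
      intro h1
      apply hne
      rw [inv_mul_eq_one] at h1
      exact h1
    have h2 := hr _ hne' x
    have h3 : ds m x ((g⁻¹ * g') • x) = ds m (g • x) (g' • x) := by
      rw [← B1_ds hX hi g x, mul_smul, smul_inv_smul]
    rw [h3] at h2
    linarith
  have hRf : ((R J : Finset Pl) : Set Pl).Finite := (R J).finite_toSet
  have hS₂f : S₂.Finite := Set.Finite.of_injOn hmaps hinj hRf
  have hS₂c : S₂.ncard ≤ (1 + M * W) ^ J := by
    have h1 := Set.ncard_le_ncard_of_injOn f hmaps hinj hRf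
    rw [Set.ncard_coe_finset] at h1
    exact h1.trans (hRc J)
  refine ⟨(hS₁f.1.union hS₂f).subset hsub, ?_⟩
  calc S.ncard ≤ (S₁ ∪ S₂).ncard := Set.ncard_le_ncard hsub (hS₁f.1.union hS₂f)
    _ ≤ S₁.ncard + S₂.ncard := Set.ncard_union_le _ _
    _ ≤ _ := Nat.add_le_add hS₁f.2 hS₂c

end BGM
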