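import Pool.Agent.LibBE35.CL1
import Pool.Agent.LibBGM20.D1
import Pool.Agent.LibBGM20.E2

/-! Counting lemma, uniformly in a family of metrics. -/

open MeasureTheory Set Filter Topology
open scoped ContDiff

namespace BGM

open BGS

variable {Γ : Type} [Group Γ] [MulAction Γ Pl] {D : Set Pl}
variable {m : Pl → Co}

private theorem CL_n1 {k K C N' η l ε lam s M p : ℝ} (hk : 0 < k) (hη : 0 < η)
    (hN1 : 1 ≤ N') (hK : K = 7 * Real.exp (4 * k) * N' / (η * k)) (hC2 : K ^ 2 ≤ C)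
    (hl : 1 ≤ l) (hε : 0 < ε) (hεl : ε * (C * l ^ 2) ≤ 1) (hs : s = Real.exp (lam / 2))
    (hexplam : Real.exp lam = 1 / ε) (hp0 : 0 < p) (hp2 : p ≤ lam / (2 * k) + 1)
    (hM0 : 0 ≤ M) (hMr : M ≤ N' * l) :
    7 * ε * M * (Real.sinh (k * (p + 3)) / k) ≤ η := by
  have hK0 : 0 < K := by rw [hK]; positivity
  have h1 : Real.sinh (k * (p + 3)) ≤ Real.exp (4 * k) * s := by
    rw [hs, ← Real.exp_add]
    have h2 : Real.sinh (k * (p + 3)) ≤ Real.exp (k * (p + 3)) := by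
      rw [Real.sinh_eq]
      have := Real.exp_pos (k * (p + 3))
      have := Real.exp_pos (-(k * (p + 3)))
      linarith
    refine h2.trans (Real.exp_le_exp.2 ?_)
    have h3 : k * (p + 3) ≤ k * (lam / (2 * k) + 1 + 3) := by
      apply mul_le_mul_of_nonneg_left _ hk.le
      linarith
    have h4 : k * (lam / (2 * k) + 1 + 3) = 4 * k + lam / 2 := by field_simp; ring
    linarith
  have hs0 : 0 < s := by rw [hs]; exact Real.exp_pos _
  have hs2 : s ^ 2 * ε = 1 := by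
    rw [hs, ← Real.exp_nat_mul]
    have : ((2 : ℕ) : ℝ) * (lam / 2) = lam := by push_cast; ring
    rw [this, hexplam]
    field_simp
  have hKl : K * l ≤ s := by
    have h5 : (K * l) ^ 2 ≤ s ^ 2 := by
      have h6 : ε * (K ^ 2 * l ^ 2) ≤ 1 := by
        have h60 : K ^ 2 * l ^ 2 ≤ C * l ^ 2 := mul_le_mul_of_nonneg_right hC2 (sq_nonneg l)
        have : ε * (K ^ 2 * l ^ 2) ≤ ε * (C * l ^ 2) := mul_le_mul_of_nonneg_left h60 hε.le
        linarith
      have h7 : ε * (K * l) ^ 2 ≤ ε * s ^ 2 := by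
        rw [mul_pow, mul_comm ε (s ^ 2), hs2]
        exact h6
      exact le_of_mul_le_mul_left h7 hε
    exact le_of_sq_le_sq h5 hs0.le
  have h9 : 0 ≤ Real.sinh (k * (p + 3)) / k := by
    apply div_nonneg _ hk.le
    rw [Real.sinh_nonneg_iff]
    positivity
  have h8 : 7 * ε * M * (Real.sinh (k * (p + 3)) / k) ≤ 7 * ε * (N' * l) * (Real.exp (4 * k) * s / k) := by
    apply mul_le_mul
    · exact mul_le_mul_of_nonneg_left hMr (by positivity)
    · exact div_le_div_of_nonneg_right h1 hk.le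
    · exact h9
    · have : 0 ≤ N' * l := by nlinarith
      positivity
  have h10 : 7 * ε * (N' * l) * (Real.exp (4 * k) * s / k) = η * (K * l) * (s * ε) := by
    rw [hK]; field_simp
  rw [h10] at h8
  have h11 : η * (K * l) * (s * ε) ≤ η * s * (s * ε) := by
    apply mul_le_mul_of_nonneg_right _ (by positivity)
    exact mul_le_mul_of_nonneg_left hKl hη.le
  have h12 : η * s * (s * ε) = η * (s ^ 2 * ε) := by ring
  rw [h12, hs2, mul_one] at h11
  linarith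

private theorem CL_n2 {A k l x X : ℝ} {J : ℕ} (hA : 1 ≤ A) (hk : 0 < k) (hl : 1 ≤ l) (hx : 0 ≤ x)
    (hJ : (J : ℝ) ≤ 2 + 2 * k * x) (hX0 : 0 ≤ X) (hX : X ≤ A * l ^ 2) :
    X ^ J ≤ Real.exp ((2 + 2 * k) * (Real.log A + 2) * ((1 + x) * (1 + Real.log l))) := by
  have hAl : 0 < A * l ^ 2 := by positivity
  have hlogl : 0 ≤ Real.log l := Real.log_nonneg hl
  have hlogA : 0 ≤ Real.log A := Real.log_nonneg hA
  have e1 : X ^ J ≤ (A * l ^ 2) ^ J := pow_le_pow_left₀ hX0 hX J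
  have e2 : (A * l ^ 2) ^ J = Real.exp (J * (Real.log A + 2 * Real.log l)) := by
    have e3 : Real.log (A * l ^ 2) = Real.log A + 2 * Real.log l := by
      rw [Real.log_mul (by positivity) (by positivity), Real.log_pow]
      push_cast
      ring
    rw [← e3, Real.exp_nat_mul, Real.exp_log hAl]
  rw [e2] at e1
  refine e1.trans (Real.exp_le_exp.2 ?_)
  have h1 : (J : ℝ) ≤ (2 + 2 * k) * (1 + x) := by nlinarith
  have h2 : Real.log A + 2 * Real.log l ≤ (Real.log A + 2) * (1 + Real.log l) := by nlinarith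
  have h3 : (J : ℝ) * (Real.log A + 2 * Real.log l) ≤
      ((2 + 2 * k) * (1 + x)) * ((Real.log A + 2) * (1 + Real.log l)) :=
    mul_le_mul h1 h2 (by positivity) (by positivity)
  have h4 : ((2 + 2 * k) * (1 + x)) * ((Real.log A + 2) * (1 + Real.log l)) =
    (2 + 2 * k) * (Real.log A + 2) * ((1 + x) * (1 + Real.log l)) := by ring
  linarith

private theorem CL_n3 {N a Z C T X : ℝ} (hN : 0 ≤ N) (ha : 0 ≤ a) (hZ : 1 ≤ Z)
    (hX : X ≤ Real.exp (a * Z)) (hC : a + Real.log (N + 1) ≤ C) (hT : T = C * Z) :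
    N + X ≤ Real.exp T := by
  have hlogN : 0 ≤ Real.log (N + 1) := Real.log_nonneg (by linarith)
  have hY0 : 0 ≤ a * Z := by positivity
  have h3 : N ≤ N * Real.exp (a * Z) := le_mul_of_one_le_right hN (Real.one_le_exp hY0)
  have h4 : N + X ≤ Real.exp (Real.log (N + 1) + a * Z) := by
    rw [Real.exp_add, Real.exp_log (by linarith)]
    have : (N + 1) * Real.exp (a * Z) = N * Real.exp (a * Z) + Real.exp (a * Z) := by ring
    linarith
  refine h4.trans (Real.exp_le_exp.2 ?_)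
  have h6 : Real.log (N + 1) ≤ Real.log (N + 1) * Z := le_mul_of_one_le_right hlogN hZ
  have h9 : (a + Real.log (N + 1)) * Z ≤ C * Z := mul_le_mul_of_nonneg_right hC (by linarith)
  rw [hT]
  nlinarith

/-- The choice of the parameters. -/
theorem CL_num {N : ℕ} {η k : ℝ} (hη : 0 < η) (hk : 0 < k) :
    ∃ C : ℝ, 1 ≤ C ∧ ∀ l ε : ℝ, 1 ≤ l → 0 < ε → ε * (C * l ^ 2) ≤ 1 →
      ∃ L M W p J : ℕ, 1 ≤ M ∧ N * (L + 1) ≤ M ∧ l ≤ L ∧
        ((L : ℝ) + 2 * (p + 1)) / η + 3 ≤ W ∧ ε ≤ 1 / 2 ∧ 2 * ε * M < 1 ∧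
        7 * ε * M * (Real.sinh (k * (p + 3)) / k) ≤ η ∧ l ≤ J * p ∧
        ((N + (1 + M * W) ^ J : ℕ) : ℝ) ≤
          Real.exp (C * (1 + l / Real.log (1 / ε)) * (1 + Real.log l)) := by
  obtain ⟨N', hN'⟩ : ∃ N' : ℝ, N' = 3 * N + 1 := ⟨_, rfl⟩
  have hN0 : (0 : ℝ) ≤ N := Nat.cast_nonneg N
  have hN1 : 1 ≤ N' := by rw [hN']; linarith
  obtain ⟨K, hK⟩ : ∃ K : ℝ, K = 7 * Real.exp (4 * k) * N' / (η * k) := ⟨_, rfl⟩
  have hK0 : 0 < K := by rw [hK]; positivity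
  obtain ⟨A, hA⟩ : ∃ A : ℝ, A = 1 + N' * (8 / η + 4) := ⟨_, rfl⟩
  have hA1 : 1 ≤ A := by
    rw [hA]
    have : 0 ≤ N' * (8 / η + 4) := by positivity
    linarith
  have hlogA : 0 ≤ Real.log A := Real.log_nonneg hA1
  have hlogN : 0 ≤ Real.log (N + 1) := Real.log_nonneg (by linarith)
  obtain ⟨C, hC⟩ : ∃ C : ℝ, C = 1 + 2 * N' + K ^ 2 + (2 + 2 * k) * (Real.log A + 2) + Real.log (N + 1) := ⟨_, rfl⟩
  have hk2 : 0 ≤ (2 + 2 * k) * (Real.log A + 2) := by positivity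
  have hC1 : 1 + 2 * N' ≤ C := by rw [hC]; linarith [sq_nonneg K]
  have hC2 : K ^ 2 ≤ C := by rw [hC]; linarith
  have hC3 : (2 + 2 * k) * (Real.log A + 2) + Real.log (N + 1) ≤ C := by rw [hC]; linarith [sq_nonneg K]
  refine ⟨C, by linarith, fun l ε hl hε hεl => ?_⟩
  have hl0 : 0 < l := by linarith
  have hl2 : 1 ≤ l ^ 2 := by nlinarith
  have hll : l ≤ l ^ 2 := by nlinarith
  have hCpos : 0 < C := by linarith
  have hεC : ε * C ≤ 1 := by
    have : ε * C ≤ ε * (C * l ^ 2) := by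
      apply mul_le_mul_of_nonneg_left _ hε.le
      nlinarith
    linarith
  have hεhalf : ε ≤ 1 / 3 := by
    have : ε * 3 ≤ ε * C := by apply mul_le_mul_of_nonneg_left _ hε.le; linarith
    linarith
  obtain ⟨lam, hlam⟩ : ∃ lam : ℝ, lam = Real.log (1 / ε) := ⟨_, rfl⟩
  have hlam0 : 0 < lam := by
    rw [hlam]
    apply Real.log_pos
    rw [lt_div_iff₀ hε]; linarith
  have hexplam : Real.exp lam = 1 / ε := by rw [hlam, Real.exp_log (by positivity)]
  obtain ⟨L, hL⟩ : ∃ L : ℕ, L = ⌈l⌉₊ := ⟨_, rfl⟩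
  have hL1 : l ≤ L := by rw [hL]; exact Nat.le_ceil _
  have hL2 : (L : ℝ) ≤ 2 * l := by
    have := Nat.ceil_lt_add_one hl0.le
    rw [← hL] at this
    linarith
  have hL3 : 1 ≤ L := by
    have : (1 : ℝ) ≤ L := by linarith
    exact_mod_cast this
  obtain ⟨M, hM⟩ : ∃ M : ℕ, M = N * (L + 1) + 1 := ⟨_, rfl⟩
  have hMr : (M : ℝ) ≤ N' * l := by
    rw [hM, hN']
    push_cast
    nlinarith
  have hM1 : 1 ≤ M := by omega
  have hM0 : (1 : ℝ) ≤ M := by exact_mod_cast hM1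
  obtain ⟨p, hp⟩ : ∃ p : ℕ, p = min (⌊lam / (2 * k)⌋₊ + 1) L := ⟨_, rfl⟩
  have hp1 : 1 ≤ p := by rw [hp]; exact le_min (by omega) hL3
  have hp0 : (0 : ℝ) < p := by exact_mod_cast hp1
  have hp2 : (p : ℝ) ≤ lam / (2 * k) + 1 := by
    have h1 : p ≤ ⌊lam / (2 * k)⌋₊ + 1 := by rw [hp]; exact min_le_left _ _
    have h2 : (p : ℝ) ≤ (⌊lam / (2 * k)⌋₊ : ℕ) + 1 := by exact_mod_cast h1
    have h3 : ((⌊lam / (2 * k)⌋₊ : ℕ) : ℝ) ≤ lam / (2 * k) := Nat.floor_le (by positivity)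
    linarith
  have hp3 : (p : ℝ) ≤ L := by
    have : p ≤ L := by rw [hp]; exact min_le_right _ _
    exact_mod_cast this
  have hJp : l / p ≤ 1 + 2 * k * (l / lam) := by
    rcases min_choice (⌊lam / (2 * k)⌋₊ + 1) L with h | h
    · rw [← hp] at h
      have h1 : lam / (2 * k) ≤ p := by
        rw [h]
        push_cast
        exact (Nat.lt_floor_add_one _).le
      have h2 : l / p ≤ l / (lam / (2 * k)) := by
        apply div_le_div_of_nonneg_left hl0.le (by positivity) h1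
      have h3 : l / (lam / (2 * k)) = 2 * k * (l / lam) := by field_simp
      linarith
    · rw [← hp] at h
      have h1 : l / p ≤ 1 := by
        rw [h, div_le_one (by linarith)]; exact hL1
      have h2 : 0 ≤ 2 * k * (l / lam) := by positivity
      linarith
  obtain ⟨J, hJ⟩ : ∃ J : ℕ, J = ⌈l / p⌉₊ := ⟨_, rfl⟩
  have hJ1 : l / p ≤ J := by rw [hJ]; exact Nat.le_ceil _
  have hJ2 : (J : ℝ) ≤ 2 + 2 * k * (l / lam) := by
    have := Nat.ceil_lt_add_one (show 0 ≤ l / p by positivity)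
    rw [← hJ] at this
    linarith
  obtain ⟨W, hW⟩ : ∃ W : ℕ, W = ⌈((L : ℝ) + 2 * (p + 1)) / η + 3⌉₊ := ⟨_, rfl⟩
  have hW1 : ((L : ℝ) + 2 * (p + 1)) / η + 3 ≤ W := by rw [hW]; exact Nat.le_ceil _
  have hW2 : (W : ℝ) ≤ (8 / η + 4) * l := by
    have h1 := Nat.ceil_lt_add_one (show 0 ≤ ((L : ℝ) + 2 * (p + 1)) / η + 3 by positivity)
    rw [← hW] at h1
    have h2 : ((L : ℝ) + 2 * (p + 1)) / η ≤ (8 * l) / η :=
      div_le_div_of_nonneg_right (by linarith) hη.le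
    have h3 : (8 / η + 4) * l = 8 * l / η + 4 * l := by ring
    rw [h3]
    linarith
  refine ⟨L, M, W, p, J, hM1, by omega, hL1, hW1, by linarith, ?_, ?_, ?_, ?_⟩
  · -- 2 ε M < 1
    have h1 : 2 * ε * M ≤ 2 * ε * (N' * l) := mul_le_mul_of_nonneg_left hMr (by positivity)
    have h2 : 2 * ε * (N' * l) ≤ ε * ((2 * N') * l ^ 2) := by
      have h20 : N' * l ≤ N' * l ^ 2 := mul_le_mul_of_nonneg_left hll (by linarith)
      have h21 : ε * (N' * l) ≤ ε * (N' * l ^ 2) := mul_le_mul_of_nonneg_left h20 hε.le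
      linarith
    have h3 : ε * ((2 * N') * l ^ 2) < ε * (C * l ^ 2) := by
      apply mul_lt_mul_of_pos_left _ hε
      apply mul_lt_mul_of_pos_right _ (by positivity)
      linarith
    linarith
  · exact CL_n1 hk hη hN1 hK hC2 hl hε hεl rfl hexplam hp0 hp2 (by linarith) hMr
  · rwa [div_le_iff₀ hp0] at hJ1
  · -- the final bound
    rw [← hlam]
    push_cast
    have hbase : (1 : ℝ) + M * W ≤ A * l ^ 2 := by
      have h1 : (M : ℝ) * W ≤ (N' * l) * ((8 / η + 4) * l) :=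
        mul_le_mul hMr hW2 (Nat.cast_nonneg _) (by nlinarith)
      have h2 : A * l ^ 2 = l ^ 2 + (N' * l) * ((8 / η + 4) * l) := by rw [hA]; ring
      linarith
    have hb0 : (0 : ℝ) ≤ 1 + M * W := by positivity
    have hx : 0 ≤ l / lam := by positivity
    have hlogl : 0 ≤ Real.log l := Real.log_nonneg hl
    have hpow := CL_n2 hA1 hk hl hx hJ2 hb0 hbase
    have hZ : 1 ≤ (1 + l / lam) * (1 + Real.log l) := by nlinarith
    exact CL_n3 hN0 hk2 hZ hpow hC3 (by ring)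

/-- **Counting lemma.** Uniformly in the metrics `exp σ • m` with `|σ| ≤ B` and curvature in
`[-k², 0)`: few elements `g` with `ds x (g x) ≤ l` are such that the segment `[x, g x]` follows the
translates of a given segment within `ε`. -/
theorem CL_uniform (hX : Surface Γ D) (h1 : H1 Γ) (hm : Rp m) (hi : Iv Γ m)
    (hn : ∀ z, curv m z < 0) (B : ℝ) {k : ℝ} (hk : 0 < k) : ∃ C : ℝ, 1 ≤ C ∧
    ∀ σ : Pl → ℝ, ContDiff ℝ ∞ σ → (∀ (γ : Γ) (z : Pl), σ (γ • z) = σ z) → (∀ z, |σ z| ≤ B) →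
      (∀ z, -k ^ 2 ≤ curv (cf σ m) z ∧ curv (cf σ m) z < 0) →
      ∀ l ε : ℝ, 1 ≤ l → 0 < ε → ε * (C * l ^ 2) ≤ 1 → ∀ x a b : Pl, ds (cf σ m) a b ≤ l →
        {g : Γ | ds (cf σ m) x (g • x) ≤ l ∧ Fol Γ (cf σ m) ε x (g • x) a b}.Finite ∧
        (({g : Γ | ds (cf σ m) x (g • x) ≤ l ∧
          Fol Γ (cf σ m) ε x (g • x) a b}.ncard : ℕ) : ℝ) ≤
          Real.exp (C * (1 + l / Real.log (1 / ε)) * (1 + Real.log l)) := by
  obtain ⟨k₀, hk₀, hK₀⟩ := E2_base hX hm hi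
  obtain ⟨E, V, F, h⟩ := h1 k₀ m hk₀ hm hi fun z => ⟨hK₀ z, hn z⟩
  obtain ⟨r, hr, hr'⟩ := B1_rad hX hi h
  obtain ⟨N, hN⟩ := B1_loc hX hi h (3 * Real.exp (B / 2))
  obtain ⟨r', hr'def⟩ : ∃ r' : ℝ, r' = Real.exp (-(B / 2)) * r := ⟨_, rfl⟩
  have hr'0 : 0 < r' := by rw [hr'def]; positivity
  obtain ⟨η, hη⟩ : ∃ η : ℝ, η = min (r' / 5) (1 / 4) := ⟨_, rfl⟩
  have hη0 : 0 < η := by rw [hη]; exact lt_min (by positivity) (by norm_num)
  have hη1 : η ≤ 1 / 4 := by rw [hη]; exact min_le_right _ _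
  have hη2 : η ≤ r' / 5 := by rw [hη]; exact min_le_left _ _
  obtain ⟨C, hC, hnum⟩ := CL_num (N := N) hη0 hk
  refine ⟨C, hC, fun σ hσ hσi hσB hσK l ε hl hε hεl x a b hab => ?_⟩
  have hm' : Rp (cf σ m) := D1_rp hm hσ
  have hi' : Iv Γ (cf σ m) := D1_iv hi hσi
  obtain ⟨E', V', F', h'⟩ := h1 k (cf σ m) hk hm' hi' hσK
  have hle : ∀ z w, ds m z w ≤ Real.exp (B / 2) * ds (cf σ m) z w := by
    intro z w
    have := D1_ds (f := fun _ => 0) (f' := σ) hm contDiff_const hσ (ε := B) (fun z => by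
      have := (abs_le.1 (hσB z)).1
      linarith) z w
    rwa [D1_zero] at this
  have hr2 : ∀ g : Γ, g ≠ 1 → ∀ z : Pl, r' ≤ ds (cf σ m) z (g • z) := by
    intro g hg z
    have a1 := hr' g hg z
    have a2 := hle z (g • z)
    rw [hr'def, Real.exp_neg, inv_mul_le_iff₀ (Real.exp_pos _)]
    linarith
  have hN2 : ∀ x y : Pl, {g : Γ | ds (cf σ m) (g • x) y ≤ 3}.Finite ∧
      {g : Γ | ds (cf σ m) (g • x) y ≤ 3}.ncard ≤ N := by
    intro x y
    have hsub : {g : Γ | ds (cf σ m) (g • x) y ≤ 3} ⊆ {g : Γ | ds m (g • x) y ≤ 3 * Real.exp (B / 2)} := by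
      intro g hg
      have hg' : ds (cf σ m) (g • x) y ≤ 3 := hg
      show ds m (g • x) y ≤ 3 * Real.exp (B / 2)
      refine (hle _ _).trans ?_
      rw [mul_comm]
      exact mul_le_mul_of_nonneg_right hg' (Real.exp_pos _).le
    exact ⟨(hN x y).1.subset hsub, (Set.ncard_le_ncard hsub (hN x y).1).trans (hN x y).2⟩
  obtain ⟨L, M, W, p, J, c1, c2, c3, c4, c5, c6, c7, c8, c9⟩ := hnum l ε hl hε hεl
  obtain ⟨f1, f2⟩ := CL_count hX hi' h' hr2 hN2 c1 c2 hη0 (by linarith) hη1 c4 c5 c6 c7 c8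
    (x := x) (a := a) (b := b) (hab.trans c3)
  refine ⟨f1, le_trans ?_ c9⟩
  exact_mod_cast f2

end BGM
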