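import Pool.Agent.LibBE35.CL3

/-! Counting lemma for a family of segments and a variable base point, uniformly in a family of
metrics. -/

open MeasureTheory Set Filter Topology
open scoped ContDiff

namespace BGM

open BGS

/-- The segment from `x` to `y` stays within `ε` of the translates of the segments from `a i` to
`b i`. -/
def FolF (Γ : Type) [Group Γ] [MulAction Γ Pl] (m : Pl → Co) (ε : ℝ) (x y : Pl) {n : ℕ}
    (a b : Fin n → Pl) : Prop :=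
  ∀ z ∈ Seg m x y, ∃ i : Fin n, ∃ γ : Γ, ∃ w ∈ Seg m (a i) (b i), ds m z (γ • w) ≤ ε

variable {Γ : Type} [Group Γ] [MulAction Γ Pl] {D : Set Pl}
variable {m : Pl → Co} {k : ℝ} {E V : Pl → Pl → Pl} {F : Pl → Pl → ℝ → ℝ}

/-- The strands near a point. -/
def StrF (Γ : Type) [Group Γ] [MulAction Γ Pl] (m : Pl → Co) {n : ℕ} (c' : Fin n → ℝ → Pl) (L : ℕ)
    (q : Pl) : Set (Fin n × Γ) := {r | ∃ j : ℕ, j ≤ L ∧ ds m (r.2 • c' r.1 j) q ≤ 3}

theorem CLF_str {N : ℕ} (hN : ∀ x y : Pl, {g : Γ | ds m (g • x) y ≤ 3}.Finite ∧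
      {g : Γ | ds m (g • x) y ≤ 3}.ncard ≤ N) {n : ℕ} (c' : Fin n → ℝ → Pl) (L : ℕ) (q : Pl) :
    (StrF Γ m c' L q).Finite ∧ (StrF Γ m c' L q).ncard ≤ n * (N * (L + 1)) := by
  have e : StrF Γ m c' L q = ⋃ i ∈ (Finset.univ : Finset (Fin n)),
      (fun γ : Γ => (i, γ)) '' (Str Γ m (c' i) L q) := by
    ext ⟨i, γ⟩
    simp only [StrF, Str, mem_ofPred_eq, mem_iUnion, Finset.mem_univ, exists_prop, mem_image,
      Prod.mk.injEq]
    constructor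
    · rintro ⟨j, hj, h⟩
      exact ⟨i, trivial, γ, ⟨j, hj, h⟩, rfl, rfl⟩
    · rintro ⟨i', -, γ', ⟨j, hj, h⟩, rfl, rfl⟩
      exact ⟨j, hj, h⟩
  have hf : ∀ i ∈ (Finset.univ : Finset (Fin n)),
      ((fun γ : Γ => (i, γ)) '' (Str Γ m (c' i) L q)).Finite :=
    fun i _ => ((CL_str hN (c' i) L q).1).image _
  constructor
  · rw [e]
    exact Set.Finite.biUnion (Finset.univ : Finset (Fin n)).finite_toSet hf
  · rw [e]
    refine (Finset.set_ncard_biUnion_le _ _).trans ?_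
    refine (Finset.sum_le_sum fun i _ => (Set.ncard_image_le (CL_str hN (c' i) L q).1).trans
      (CL_str hN (c' i) L q).2).trans ?_
    rw [Finset.sum_const, Finset.card_univ, Fintype.card_fin, smul_eq_mul]

/-- One step. -/
theorem CLF_step (hX : Surface Γ D) (hi : Iv Γ m) (h : Had m k E V F) {n : ℕ} {c' : Fin n → ℝ → Pl}
    (hc' : ∀ i, IsLine m (c' i)) {L M : ℕ} (hM : 1 ≤ M) {ε η : ℝ} {p : ℕ} {q : Pl}
    (hS : (StrF Γ m c' L q).Finite ∧ (StrF Γ m c' L q).ncard ≤ M) (hε : ε ≤ 1 / 2)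
    (hεM : 2 * ε * M < 1) (hεη : 7 * ε * M * (Real.sinh (k * (p + 3)) / k) ≤ η)
    {c : ℝ → Pl} (hc : IsLine m c) {t₀ : ℝ}
    (hf : ∀ t, t₀ ≤ t → t ≤ t₀ + 1 → ∃ i : Fin n, ∃ γ : Γ, ∃ s : ℝ, 0 ≤ s ∧ s ≤ L ∧
      ds m (c t) (γ • c' i s) ≤ ε)
    (hq : ds m (c t₀) q ≤ 1 / 2) :
    ∃ γ ∈ StrF Γ m c' L q, ∀ t, t₀ ≤ t → t ≤ t₀ + (p + 1) →
      ∃ u : ℝ, -((p : ℝ) + 1) ≤ u ∧ u ≤ L + (p + 1) ∧ ds m (c t) (γ.2 • c' γ.1 u) ≤ η := by
  classical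
  have hk := h.kpos
  have hM0 : (0 : ℝ) < M := by exact_mod_cast hM
  obtain ⟨tm, htm⟩ : ∃ tm : Fin (M + 1) → ℝ, tm = fun i : Fin (M + 1) => t₀ + ((i : ℕ) : ℝ) / M := ⟨_, rfl⟩
  have htm0 : ∀ i, t₀ ≤ tm i ∧ tm i ≤ t₀ + 1 := by
    intro i
    have h1 : ((i : ℕ) : ℝ) ≤ M := by exact_mod_cast Nat.lt_succ_iff.1 i.2
    have h2 : ((i : ℕ) : ℝ) / M ≤ 1 := by rw [div_le_one hM0]; exact h1
    have h3 : 0 ≤ ((i : ℕ) : ℝ) / M := by positivity
    rw [htm]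
    constructor
    · show t₀ ≤ t₀ + ((i : ℕ) : ℝ) / M
      linarith
    · show t₀ + ((i : ℕ) : ℝ) / M ≤ t₀ + 1
      linarith
  choose o γ s hs0 hsL hd using fun i => hf (tm i) (htm0 i).1 (htm0 i).2
  have hmem : ∀ i, (o i, γ i) ∈ StrF Γ m c' L q := by
    intro i
    have hfl : ((⌊s i⌋₊ : ℕ) : ℝ) ≤ s i := Nat.floor_le (hs0 i)
    have hfl' : s i < (⌊s i⌋₊ : ℕ) + 1 := Nat.lt_floor_add_one _
    refine ⟨⌊s i⌋₊, ?_, ?_⟩
    · have : ((⌊s i⌋₊ : ℕ) : ℝ) ≤ L := hfl.trans (hsL i)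
      exact_mod_cast this
    · have t1 := ds_tri h.rp (γ i • c' (o i) (⌊s i⌋₊ : ℕ)) (γ i • c' (o i) (s i)) q
      have t2 := ds_tri h.rp (γ i • c' (o i) (s i)) (c (tm i)) q
      have t3 := ds_tri h.rp (c (tm i)) (c t₀) q
      have e1 : ds m (γ i • c' (o i) (⌊s i⌋₊ : ℕ)) (γ i • c' (o i) (s i)) ≤ 1 := by
        rw [B1_ds hX hi, hc', abs_sub_comm, abs_of_nonneg (by linarith)]
        linarith
      have e2 : ds m (γ i • c' (o i) (s i)) (c (tm i)) ≤ 1 / 2 := by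
        rw [ds_symm h.rp]
        exact (hd i).trans hε
      have e3 : ds m (c (tm i)) (c t₀) ≤ 1 := by
        rw [hc, abs_of_nonneg (by linarith [(htm0 i).1])]
        linarith [(htm0 i).2]
      show ds m (γ i • c' (o i) (⌊s i⌋₊ : ℕ)) q ≤ 3
      linarith
  obtain ⟨i, -, j, -, hij, hγ⟩ : ∃ i ∈ (Finset.univ : Finset (Fin (M + 1))), ∃ j ∈ (Finset.univ : Finset (Fin (M + 1))),
      i ≠ j ∧ (o i, γ i) = (o j, γ j) := by
    refine Finset.exists_ne_map_eq_of_card_lt_of_maps_to (f := fun i => (o i, γ i))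
      (t := hS.1.toFinset) ?_ fun i _ => ?_
    · rw [← Set.ncard_eq_toFinset_card _ hS.1, Finset.card_univ, Fintype.card_fin]
      omega
    · rw [Finset.mem_coe, Set.Finite.mem_toFinset]
      exact hmem i
  wlog hlt : i < j generalizing i j
  · exact this j i hij.symm hγ.symm (lt_of_le_of_ne (not_lt.1 hlt) hij.symm)
  have hgap : 1 / (M : ℝ) ≤ tm j - tm i := by
    rw [htm]
    show 1 / (M : ℝ) ≤ (t₀ + ((j : ℕ) : ℝ) / M) - (t₀ + ((i : ℕ) : ℝ) / M)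
    have h1 : ((i : ℕ) : ℝ) + 1 ≤ (j : ℕ) := by exact_mod_cast hlt
    have h2 : (t₀ + ((j : ℕ) : ℝ) / M) - (t₀ + ((i : ℕ) : ℝ) / M) = (((j : ℕ) : ℝ) - (i : ℕ)) / M := by ring
    rw [h2]
    apply div_le_div_of_nonneg_right _ hM0.le
    linarith
  have hM1 : 0 < 1 / (M : ℝ) := by positivity
  have hgap0 : tm i < tm j := by linarith
  have hgap1 : tm j - tm i ≤ 1 := by linarith [(htm0 i).1, (htm0 j).2]
  have hε2 : 2 * ε < tm j - tm i := by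
    refine lt_of_lt_of_le ?_ hgap
    rw [lt_div_iff₀ hM0]
    exact hεM
  have hlγ := B1_line hX hi (γ i) (hc' (o i))
  have hdj : ds m (c (tm j)) (γ i • c' (o i) (s j)) ≤ ε := by
    have e1 : o i = o j := congrArg Prod.fst hγ
    have e2 : γ i = γ j := congrArg Prod.snd hγ
    rw [e1, e2]
    exact hd j
  obtain ⟨σ, hσ, hcmp⟩ := A8_cmp h hc hlγ hgap0 hgap1 hε2 (hd i) hdj
  have hε0 : 0 ≤ ε := (ds_nonneg _ _ _).trans (hd i)
  refine ⟨(o i, γ i), hmem i, fun t ht0 ht1 => ?_⟩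
  obtain ⟨r, hr⟩ : ∃ r : ℝ, r = t - tm i := ⟨_, rfl⟩
  have hr1 : |r| ≤ p + 1 := by
    rw [abs_le]
    have h1 := htm0 i
    have hp : (0 : ℝ) ≤ p := Nat.cast_nonneg p
    constructor <;> linarith [h1.1, h1.2]
  have hσr : |σ * r| ≤ p + 1 := by
    rcases hσ with h1 | h1
    · rw [h1, one_mul]; exact hr1
    · rw [h1, neg_one_mul, abs_neg]; exact hr1
  rw [abs_le] at hσr
  refine ⟨s i + σ * r, by linarith [hs0 i, hσr.1], by linarith [hsL i, hσr.2], ?_⟩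
  have h1 := hcmp r
  have e1 : tm i + r = t := by rw [hr]; ring
  rw [e1] at h1
  refine h1.trans ?_
  have hsinh : Real.sinh (k * (|r| + 2)) ≤ Real.sinh (k * (p + 3)) := by
    rw [Real.sinh_le_sinh]
    apply mul_le_mul_of_nonneg_left _ hk.le
    linarith
  have hsinh0 : 0 ≤ Real.sinh (k * (|r| + 2)) := by
    rw [Real.sinh_nonneg_iff]
    have := abs_nonneg r
    positivity
  have f1 : 7 * ε * (Real.sinh (k * (|r| + 2)) / k) / (tm j - tm i) ≤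
      7 * ε * (Real.sinh (k * (|r| + 2)) / k) / (1 / M) :=
    div_le_div_of_nonneg_left (by positivity) hM1 hgap
  have f2 : 7 * ε * (Real.sinh (k * (|r| + 2)) / k) / (1 / M) =
      7 * ε * M * (Real.sinh (k * (|r| + 2)) / k) := by field_simp
  have f3 : 7 * ε * M * (Real.sinh (k * (|r| + 2)) / k) ≤
      7 * ε * M * (Real.sinh (k * (p + 3)) / k) :=
    mul_le_mul_of_nonneg_left (div_le_div_of_nonneg_right hsinh hk.le) (by positivity)
  linarith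

/-- The next net points. -/
theorem CLF_next (hX : Surface Γ D) (hi : Iv Γ m) (h : Had m k E V F) {n : ℕ}
    {c' : Fin n → ℝ → Pl} (hc' : ∀ i, IsLine m (c' i)) {L M : ℕ} (hM : 1 ≤ M) {ε η : ℝ}
    (hη : 0 < η) {p : ℕ} {W : ℕ} (hW : ((L : ℝ) + 2 * (p + 1)) / η + 3 ≤ W) (q : Pl)
    (hS : (StrF Γ m c' L q).Finite ∧ (StrF Γ m c' L q).ncard ≤ M) (hε : ε ≤ 1 / 2)
    (hεM : 2 * ε * M < 1) (hεη : 7 * ε * M * (Real.sinh (k * (p + 3)) / k) ≤ η) :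
    ∃ P : Finset Pl, P.card ≤ M * W ∧ ∀ c : ℝ → Pl, IsLine m c → ∀ t₀ : ℝ,
      (∀ t, t₀ ≤ t → t ≤ t₀ + 1 → ∃ i : Fin n, ∃ γ : Γ, ∃ s : ℝ, 0 ≤ s ∧ s ≤ L ∧
        ds m (c t) (γ • c' i s) ≤ ε) →
      ds m (c t₀) q ≤ 1 / 2 → ∀ t, t₀ ≤ t → t ≤ t₀ + (p + 1) → ∃ z ∈ P, ds m (c t) z ≤ 2 * η := by
  classical
  obtain ⟨A, hA⟩ : ∃ A : ℤ, A = ⌊-((p : ℝ) + 1) / η⌋ := ⟨_, rfl⟩
  refine ⟨(hS.1.toFinset ×ˢ Finset.Ico A (A + W)).image fun r => r.1.2 • c' r.1.1 (η * r.2), ?_, ?_⟩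
  · refine Finset.card_image_le.trans ?_
    rw [Finset.card_product, ← Set.ncard_eq_toFinset_card _ hS.1, Int.card_Ico]
    have : (A + (W : ℤ) - A).toNat = W := by simp
    rw [this]
    exact Nat.mul_le_mul_right _ hS.2
  · intro c hc t₀ hf hq t ht0 ht1
    obtain ⟨γ, hγ, hall⟩ := CLF_step hX hi h hc' hM hS hε hεM hεη hc hf hq
    obtain ⟨u, hu0, hu1, hu⟩ := hall t ht0 ht1
    obtain ⟨n, hn⟩ : ∃ n : ℤ, n = ⌊u / η⌋ := ⟨_, rfl⟩
    have hn1 : (n : ℝ) ≤ u / η := by rw [hn]; exact Int.floor_le _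
    have hn2 : u / η < n + 1 := by rw [hn]; exact Int.lt_floor_add_one _
    have hA1 : (A : ℝ) ≤ -((p : ℝ) + 1) / η := by rw [hA]; exact Int.floor_le _
    have hA2 : -((p : ℝ) + 1) / η < A + 1 := by rw [hA]; exact Int.lt_floor_add_one _
    refine ⟨γ.2 • c' γ.1 (η * n), ?_, ?_⟩
    · rw [Finset.mem_image]
      refine ⟨(γ, n), ?_, rfl⟩
      rw [Finset.mem_product, Set.Finite.mem_toFinset, Finset.mem_Ico]
      refine ⟨hγ, ?_, ?_⟩
      · rw [hA, hn]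
        apply Int.floor_le_floor
        exact div_le_div_of_nonneg_right hu0 hη.le
      · have h1 : u / η ≤ ((L : ℝ) + (p + 1)) / η := div_le_div_of_nonneg_right hu1 hη.le
        have h2 : ((L : ℝ) + 2 * (p + 1)) / η = ((L : ℝ) + (p + 1)) / η - (-((p : ℝ) + 1) / η) := by
          field_simp
          ring
        have h3 : (n : ℝ) < A + W := by linarith
        exact_mod_cast h3
    · have t1 := ds_tri h.rp (c t) (γ.2 • c' γ.1 u) (γ.2 • c' γ.1 (η * n))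
      have e1 : ds m (γ.2 • c' γ.1 u) (γ.2 • c' γ.1 (η * n)) ≤ η := by
        rw [B1_ds hX hi, hc']
        rw [le_div_iff₀ hη] at hn1
        rw [div_lt_iff₀ hη] at hn2
        rw [abs_of_nonneg (by linarith)]
        linarith
      linarith

/-- The nets. -/
theorem CLF_net (hX : Surface Γ D) (hi : Iv Γ m) (h : Had m k E V F) {n : ℕ} {N : ℕ}
    (hN : ∀ x y : Pl, {g : Γ | ds m (g • x) y ≤ 3}.Finite ∧ {g : Γ | ds m (g • x) y ≤ 3}.ncard ≤ N)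
    {L M W p J : ℕ} (hM : 1 ≤ M) (hNM : n * (N * (L + 1)) ≤ M) {ε η : ℝ} (hη : 0 < η)
    (hη1 : η ≤ 1 / 4) (hW : ((L : ℝ) + 2 * (p + 1)) / η + 3 ≤ W) (hε : ε ≤ 1 / 2)
    (hεM : 2 * ε * M < 1) (hεη : 7 * ε * M * (Real.sinh (k * (p + 3)) / k) ≤ η)
    {l : ℝ} (hJ : l ≤ J * p) {a b : Fin n → Pl} (hab : ∀ i, ds m (a i) (b i) ≤ L)
    (X : Finset Pl) : ∃ R : Finset Pl, R.card ≤ X.card * (1 + M * W) ^ J ∧
      ∀ x y : Pl, (∃ z ∈ X, ds m x z ≤ 2 * η) → 1 ≤ ds m x y → ds m x y ≤ l →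
        FolF Γ m ε x y a b → ∃ z ∈ R, ds m y z ≤ 2 * η := by
  classical
  choose c' hc' hc0 hcl using fun i => A6_exists h (a i) (b i)
  have hab0 := fun i => ds_nonneg m (a i) (b i)
  have hS : ∀ q, (StrF Γ m c' L q).Finite ∧ (StrF Γ m c' L q).ncard ≤ M := fun q =>
    ⟨(CLF_str hN c' L q).1, (CLF_str hN c' L q).2.trans hNM⟩
  choose P hPc hP using fun q => CLF_next hX hi h hc' hM hη hW q (hS q) hε hεM hεη
  obtain ⟨R, hR0, hR1⟩ : ∃ R : ℕ → Finset Pl, R 0 = X ∧ ∀ j, R (j + 1) = R j ∪ (R j).biUnion P :=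
    ⟨fun j => Nat.rec X (fun _ A => A ∪ A.biUnion P) j, rfl, fun _ => rfl⟩
  have hRc : ∀ j, (R j).card ≤ X.card * (1 + M * W) ^ j := by
    intro j
    induction j with
    | zero => rw [hR0]; simp
    | succ j ih =>
      rw [hR1]
      calc (R j ∪ (R j).biUnion P).card ≤ (R j).card + ((R j).biUnion P).card := Finset.card_union_le _ _
        _ ≤ (R j).card + (R j).card * (M * W) :=
            Nat.add_le_add_left (Finset.card_biUnion_le_card_mul _ _ _ fun q _ => hPc q) _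
        _ = (R j).card * (1 + M * W) := by ring
        _ ≤ X.card * (1 + M * W) ^ j * (1 + M * W) := Nat.mul_le_mul_right _ ih
        _ = _ := by rw [pow_succ, mul_assoc]
  refine ⟨R J, hRc J, fun x y hxX hxy1 hxyl hfol => ?_⟩
  obtain ⟨c, hc, hcx, hcy⟩ := A6_exists h x y
  obtain ⟨l₂, hl₂⟩ : ∃ l₂ : ℝ, l₂ = ds m x y := ⟨_, rfl⟩
  rw [← hl₂] at hcy hxy1 hxyl
  have hf : ∀ t, 0 ≤ t → t ≤ l₂ → ∃ i : Fin n, ∃ γ : Γ, ∃ s : ℝ, 0 ≤ s ∧ s ≤ L ∧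
      ds m (c t) (γ • c' i s) ≤ ε := by
    intro t ht0 htl
    have hmem : c t ∈ Seg m x y := by
      have := CL_mem hc ht0 htl
      rwa [hcx, hcy] at this
    obtain ⟨i, γ, w, hw, hwd⟩ := hfol _ hmem
    have hw' : w ∈ Seg m (c' i 0) (c' i (ds m (a i) (b i))) := by rw [hc0, hcl]; exact hw
    obtain ⟨s, hs0, hs1, rfl⟩ := CL_seg h (hc' i) (hab0 i) hw'
    exact ⟨i, γ, s, hs0, hs1.trans (hab i), hwd⟩
  have key : ∀ j : ℕ, ∀ t, 0 ≤ t → t ≤ l₂ → t ≤ j * p → ∃ z ∈ R j, ds m (c t) z ≤ 2 * η := by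
    intro j
    induction j with
    | zero =>
      intro t ht0 _ ht
      have : t = 0 := by
        simp at ht
        linarith
      rw [this, hcx, hR0]
      exact hxX
    | succ j ih =>
      intro t ht0 htl ht
      rcases le_or_gt t (j * p) with h1 | h1
      · obtain ⟨z, hz, hd⟩ := ih t ht0 htl h1
        exact ⟨z, by rw [hR1]; exact Finset.mem_union_left _ hz, hd⟩
      · obtain ⟨t₀, ht₀⟩ : ∃ t₀ : ℝ, t₀ = min ((j : ℝ) * p) (l₂ - 1) := ⟨_, rfl⟩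
        have hjp : (0 : ℝ) ≤ (j : ℝ) * p := by positivity
        have b1 : t₀ ≤ (j : ℝ) * p := by rw [ht₀]; exact min_le_left _ _
        have b2 : t₀ ≤ l₂ - 1 := by rw [ht₀]; exact min_le_right _ _
        have b3 : 0 ≤ t₀ := by rw [ht₀]; exact le_min hjp (by linarith)
        obtain ⟨q, hq, hqd⟩ := ih t₀ b3 (by linarith) b1
        have hp0 : (0 : ℝ) ≤ p := Nat.cast_nonneg p
        have b4 : t ≤ t₀ + (p + 1) := by
          push_cast at ht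
          rcases min_choice ((j : ℝ) * p) (l₂ - 1) with h2 | h2
          · rw [← ht₀] at h2; rw [h2]; linarith
          · rw [← ht₀] at h2; rw [h2]; linarith
        obtain ⟨z, hz, hzd⟩ := hP q c hc t₀ (fun s hs0 hs1 => hf s (b3.trans hs0) (by linarith))
          (by linarith) t (by linarith) b4
        refine ⟨z, ?_, hzd⟩
        rw [hR1]
        exact Finset.mem_union_right _ (Finset.mem_biUnion.2 ⟨q, hq, hz⟩)
  have := key J l₂ (by linarith) le_rfl (hxyl.trans hJ)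
  rwa [hcy] at this

/-- **Counting lemma for a family of segments, one metric.** -/
theorem CLF_count (hX : Surface Γ D) (hi : Iv Γ m) (h : Had m k E V F) {r₀ : ℝ}
    (hr : ∀ g : Γ, g ≠ 1 → ∀ z : Pl, r₀ ≤ ds m z (g • z)) {n : ℕ} {N : ℕ}
    (hN : ∀ x y : Pl, {g : Γ | ds m (g • x) y ≤ 3}.Finite ∧ {g : Γ | ds m (g • x) y ≤ 3}.ncard ≤ N)
    {N₁ : ℕ} (hN₁ : {g : Γ | ∃ z ∈ closure D, ds m z (g • z) ≤ 1}.Finite ∧
      {g : Γ | ∃ z ∈ closure D, ds m z (g • z) ≤ 1}.ncard ≤ N₁)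
    {L M W p J : ℕ} (hM : 1 ≤ M) (hNM : n * (N * (L + 1)) ≤ M) {ε η : ℝ} (hη : 0 < η)
    (hηr : 8 * η < r₀) (hη1 : η ≤ 1 / 4) (hW : ((L : ℝ) + 2 * (p + 1)) / η + 3 ≤ W)
    (hε : ε ≤ 1 / 2) (hεM : 2 * ε * M < 1)
    (hεη : 7 * ε * M * (Real.sinh (k * (p + 3)) / k) ≤ η)
    {l : ℝ} (hJ : l ≤ J * p) {a b : Fin n → Pl} (hab : ∀ i, ds m (a i) (b i) ≤ L)
    {X : Finset Pl} (hXD : ∀ x ∈ closure D, ∃ z ∈ X, ds m x z ≤ 2 * η) :
    {g : Γ | ∃ x ∈ closure D, ds m x (g • x) ≤ l ∧ FolF Γ m ε x (g • x) a b}.Finite ∧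
      {g : Γ | ∃ x ∈ closure D, ds m x (g • x) ≤ l ∧ FolF Γ m ε x (g • x) a b}.ncard ≤
        N₁ + X.card * (X.card * (1 + M * W) ^ J) := by
  classical
  obtain ⟨R, hRc, hR⟩ := CLF_net hX hi h hN hM hNM hη hη1 hW hε hεM hεη hJ hab X
  obtain ⟨S, hSdef⟩ : ∃ S : Set Γ, S = {g : Γ | ∃ x ∈ closure D, ds m x (g • x) ≤ l ∧
    FolF Γ m ε x (g • x) a b} := ⟨_, rfl⟩
  rw [← hSdef]
  obtain ⟨S₁, hS₁⟩ : ∃ S₁ : Set Γ, S₁ = {g : Γ | ∃ z ∈ closure D, ds m z (g • z) ≤ 1} := ⟨_, rfl⟩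
  obtain ⟨S₂, hS₂⟩ : ∃ S₂ : Set Γ, S₂ = {g : Γ | ∃ x ∈ closure D, 1 ≤ ds m x (g • x) ∧
    ds m x (g • x) ≤ l ∧ FolF Γ m ε x (g • x) a b} := ⟨_, rfl⟩
  rw [← hS₁] at hN₁
  have hsub : S ⊆ S₁ ∪ S₂ := by
    intro g hg
    rw [hSdef] at hg
    obtain ⟨x, hx, hg1, hg2⟩ := hg
    rcases le_or_gt 1 (ds m x (g • x)) with h1 | h1
    · right; rw [hS₂]; exact ⟨x, hx, h1, hg1, hg2⟩
    · left; rw [hS₁]; exact ⟨x, hx, h1.le⟩
  have hpt : ∀ g : Γ, ∃ x : Pl, ∃ r : Pl × Pl, g ∈ S₂ → r.1 ∈ X ∧ r.2 ∈ R ∧ ds m x r.1 ≤ 2 * η ∧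
      ds m (g • x) r.2 ≤ 2 * η := by
    intro g
    by_cases hg : g ∈ S₂
    · have hg' := hg
      rw [hS₂] at hg'
      obtain ⟨x, hx, h1, h2, h3⟩ := hg'
      obtain ⟨z, hz, hzd⟩ := hXD x hx
      obtain ⟨w, hw, hwd⟩ := hR x (g • x) ⟨z, hz, hzd⟩ h1 h2 h3
      exact ⟨x, (z, w), fun _ => ⟨hz, hw, hzd, hwd⟩⟩
    · exact ⟨0, (0, 0), fun h => absurd h hg⟩
  choose xf f hf using hpt
  have hmaps : Set.MapsTo f S₂ ((X ×ˢ R : Finset (Pl × Pl)) : Set (Pl × Pl)) := by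
    intro g hg
    have := hf g hg
    rw [Finset.mem_coe, Finset.mem_product]
    exact ⟨this.1, this.2.1⟩
  have hinj : Set.InjOn f S₂ := by
    intro g hg g' hg' he
    obtain ⟨-, -, d1, d2⟩ := hf g hg
    obtain ⟨-, -, d1', d2'⟩ := hf g' hg'
    rw [← he] at d1' d2'
    have t1 := ds_tri h.rp (g • xf g) (f g).2 (g' • xf g')
    rw [ds_symm h.rp (f g).2 (g' • xf g')] at t1
    have t2 := ds_tri h.rp (xf g') (f g).1 (xf g)
    rw [ds_symm h.rp (f g).1 (xf g)] at t2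
    have t3 := ds_tri h.rp (g • xf g) (g' • xf g') (g' • xf g)
    rw [B1_ds hX hi g' (xf g') (xf g)] at t3
    by_contra hne
    have hne' : g⁻¹ * g' ≠ 1 := by
      intro h1
      apply hne
      rw [inv_mul_eq_one] at h1
      exact h1
    have h2 := hr _ hne' (xf g)
    have h3 : ds m (xf g) ((g⁻¹ * g') • xf g) = ds m (g • xf g) (g' • xf g) := by
      rw [← B1_ds hX hi g (xf g), mul_smul, smul_inv_smul]
    rw [h3] at h2
    linarith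
  have hRf : ((X ×ˢ R : Finset (Pl × Pl)) : Set (Pl × Pl)).Finite := (X ×ˢ R).finite_toSet
  have hS₂f : S₂.Finite := Set.Finite.of_injOn hmaps hinj hRf
  have hS₂c : S₂.ncard ≤ X.card * (X.card * (1 + M * W) ^ J) := by
    have h1 := Set.ncard_le_ncard_of_injOn f hmaps hinj hRf
    rw [Set.ncard_coe_finset, Finset.card_product] at h1
    exact h1.trans (Nat.mul_le_mul_left _ hRc)
  refine ⟨(hN₁.1.union hS₂f).subset hsub, ?_⟩
  calc S.ncard ≤ (S₁ ∪ S₂).ncard := Set.ncard_le_ncard hsub (hN₁.1.union hS₂f)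
    _ ≤ S₁.ncard + S₂.ncard := Set.ncard_union_le _ _
    _ ≤ _ := Nat.add_le_add hN₁.2 hS₂c

/-- **Counting lemma for a family of segments.** Uniformly in the metrics `exp σ • m` with
`|σ| ≤ B` and curvature in `[-k², 0)`. -/
theorem CLF_uniform (hX : Surface Γ D) (h1 : H1 Γ) (hm : Rp m) (hi : Iv Γ m)
    (hn : ∀ z, curv m z < 0) (B : ℝ) {k : ℝ} (hk : 0 < k) (n : ℕ) : ∃ C : ℝ, 1 ≤ C ∧
    ∀ σ : Pl → ℝ, ContDiff ℝ ∞ σ → (∀ (γ : Γ) (z : Pl), σ (γ • z) = σ z) → (∀ z, |σ z| ≤ B) →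
      (∀ z, -k ^ 2 ≤ curv (cf σ m) z ∧ curv (cf σ m) z < 0) →
      ∀ l ε : ℝ, 1 ≤ l → 0 < ε → ε * (C * l ^ 2) ≤ 1 → ∀ a b : Fin n → Pl,
        (∀ i, ds (cf σ m) (a i) (b i) ≤ l) →
        {g : Γ | ∃ x ∈ closure D, ds (cf σ m) x (g • x) ≤ l ∧
          FolF Γ (cf σ m) ε x (g • x) a b}.Finite ∧
        (({g : Γ | ∃ x ∈ closure D, ds (cf σ m) x (g • x) ≤ l ∧
          FolF Γ (cf σ m) ε x (g • x) a b}.ncard : ℕ) : ℝ) ≤
          Real.exp (C * (1 + l / Real.log (1 / ε)) * (1 + Real.log l)) := by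
  classical
  obtain ⟨k₀, hk₀, hK₀⟩ := E2_base hX hm hi
  obtain ⟨E, V, F, h⟩ := h1 k₀ m hk₀ hm hi fun z => ⟨hK₀ z, hn z⟩
  obtain ⟨hDc, z₀, hz₀⟩ := B1_dom hX
  obtain ⟨r, hr, hr'⟩ := B1_rad hX hi h
  obtain ⟨N, hN⟩ := B1_loc hX hi h (3 * Real.exp (B / 2))
  have hprop := B1_proper hX hi h hDc (Real.exp (B / 2))
  obtain ⟨N₁, hN₁⟩ : ∃ N₁ : ℕ, N₁ = {g : Γ | ∃ z ∈ closure D, ds m z (g • z) ≤ Real.exp (B / 2)}.ncard :=
    ⟨_, rfl⟩
  obtain ⟨r', hr'def⟩ : ∃ r' : ℝ, r' = Real.exp (-(B / 2)) * r := ⟨_, rfl⟩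
  have hr'0 : 0 < r' := by rw [hr'def]; positivity
  obtain ⟨η, hη⟩ : ∃ η : ℝ, η = min (r' / 9) (1 / 4) := ⟨_, rfl⟩
  have hη0 : 0 < η := by rw [hη]; exact lt_min (by positivity) (by norm_num)
  have hη1 : η ≤ 1 / 4 := by rw [hη]; exact min_le_right _ _
  have hη2 : η ≤ r' / 9 := by rw [hη]; exact min_le_left _ _
  -- the net of the domain
  obtain ⟨X, hXD⟩ : ∃ X : Finset Pl, ∀ x ∈ closure D, ∃ z ∈ X, ds m x z ≤ Real.exp (-(B / 2)) * (2 * η) := by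
    have hδ : 0 < Real.exp (-(B / 2)) * (2 * η) := by positivity
    obtain ⟨t, ht⟩ := hDc.elim_nhds_subcover (fun z => {x | ds m x z < Real.exp (-(B / 2)) * (2 * η)})
      (fun z _ => by
        have hcont : Continuous fun x => ds m x z := (ds_continuous h).comp (continuous_id.prodMk continuous_const)
        exact (isOpen_lt hcont continuous_const).mem_nhds (by
          show ds m z z < _
          rw [ds_self hm]; exact hδ))
    refine ⟨t, fun x hx => ?_⟩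
    have := ht.2 hx
    simp only [mem_iUnion, exists_prop] at this
    obtain ⟨z, hz, hxz⟩ := this
    exact ⟨z, hz, le_of_lt hxz⟩
  obtain ⟨Nb, hNb⟩ : ∃ Nb : ℕ, Nb = n * N + N₁ := ⟨_, rfl⟩
  obtain ⟨C, hC, hnum⟩ := CL_num (N := Nb) hη0 hk
  obtain ⟨K, hK⟩ : ∃ K : ℝ, K = 1 + (X.card : ℝ) * X.card := ⟨_, rfl⟩
  have hK1 : 1 ≤ K := by rw [hK]; have : (0 : ℝ) ≤ (X.card : ℝ) * X.card := by positivity
                         linarith
  have hlogK : 0 ≤ Real.log K := Real.log_nonneg hK1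
  refine ⟨C + Real.log K, by linarith, fun σ hσ hσi hσB hσK l ε hl hε hεl a b hab => ?_⟩
  have hm' : Rp (cf σ m) := D1_rp hm hσ
  have hi' : Iv Γ (cf σ m) := D1_iv hi hσi
  obtain ⟨E', V', F', h'⟩ := h1 k (cf σ m) hk hm' hi' hσK
  have hle : ∀ z w, ds m z w ≤ Real.exp (B / 2) * ds (cf σ m) z w := by
    intro z w
    have := D1_ds (f := fun _ => 0) (f' := σ) hm contDiff_const hσ (ε := B) (fun z => by
      have := (abs_le.1 (hσB z)).1
      linarith) z w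
    rwa [D1_zero] at this
  have hle2 : ∀ z w, ds (cf σ m) z w ≤ Real.exp (B / 2) * ds m z w := by
    intro z w
    have := D1_ds (f := σ) (f' := fun _ => 0) hm hσ contDiff_const (ε := B) (fun z => by
      have := (abs_le.1 (hσB z)).2
      linarith) z w
    rwa [D1_zero] at this
  have hr2 : ∀ g : Γ, g ≠ 1 → ∀ z : Pl, r' ≤ ds (cf σ m) z (g • z) := by
    intro g hg z
    have a1 := hr' g hg z
    have a2 := hle z (g • z)
    rw [hr'def, Real.exp_neg, inv_mul_le_iff₀ (Real.exp_pos _)]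
    linarith
  have hN2 : ∀ x y : Pl, {g : Γ | ds (cf σ m) (g • x) y ≤ 3}.Finite ∧
      {g : Γ | ds (cf σ m) (g • x) y ≤ 3}.ncard ≤ N := by
    intro x y
    have hsub : {g : Γ | ds (cf σ m) (g • x) y ≤ 3} ⊆ {g : Γ | ds m (g • x) y ≤ 3 * Real.exp (B / 2)} := by
      intro g hg
      have hg' : ds (cf σ m) (g • x) y ≤ 3 := hg
      show ds m (g • x) y ≤ 3 * Real.exp (B / 2)
      refine (hle _ _).trans ?_
      rw [mul_comm]
      exact mul_le_mul_of_nonneg_right hg' (Real.exp_pos _).le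
    exact ⟨(hN x y).1.subset hsub, (Set.ncard_le_ncard hsub (hN x y).1).trans (hN x y).2⟩
  have hN3 : {g : Γ | ∃ z ∈ closure D, ds (cf σ m) z (g • z) ≤ 1}.Finite ∧
      {g : Γ | ∃ z ∈ closure D, ds (cf σ m) z (g • z) ≤ 1}.ncard ≤ N₁ := by
    have hsub : {g : Γ | ∃ z ∈ closure D, ds (cf σ m) z (g • z) ≤ 1} ⊆
        {g : Γ | ∃ z ∈ closure D, ds m z (g • z) ≤ Real.exp (B / 2)} := by
      rintro g ⟨z, hz, hg⟩
      refine ⟨z, hz, (hle _ _).trans ?_⟩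
      have := mul_le_mul_of_nonneg_left hg (Real.exp_pos (B / 2)).le
      linarith
    exact ⟨hprop.subset hsub, (Set.ncard_le_ncard hsub hprop).trans hN₁.ge⟩
  have hXD' : ∀ x ∈ closure D, ∃ z ∈ X, ds (cf σ m) x z ≤ 2 * η := by
    intro x hx
    obtain ⟨z, hz, hxz⟩ := hXD x hx
    refine ⟨z, hz, (hle2 _ _).trans ?_⟩
    have := mul_le_mul_of_nonneg_left hxz (Real.exp_pos (B / 2)).le
    rw [← mul_assoc, ← Real.exp_add, add_neg_cancel, Real.exp_zero, one_mul] at this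
    exact this
  have hεl' : ε * (C * l ^ 2) ≤ 1 := by
    have : 0 ≤ ε * (Real.log K * l ^ 2) := by positivity
    have e1 : ε * ((C + Real.log K) * l ^ 2) = ε * (C * l ^ 2) + ε * (Real.log K * l ^ 2) := by ring
    linarith
  obtain ⟨L, M, W, p, J, c1, c2, c3, c4, c5, c6, c7, c8, c9⟩ := hnum l ε hl hε hεl'
  have c2' : n * (N * (L + 1)) ≤ M := by
    refine le_trans ?_ c2
    rw [hNb, ← mul_assoc]
    exact Nat.mul_le_mul_right _ (Nat.le_add_right _ _)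
  obtain ⟨f1, f2⟩ := CLF_count hX hi' h' hr2 hN2 hN3 c1 c2' hη0 (by linarith) hη1 c4 c5 c6 c7 c8
    (a := a) (b := b) (fun i => (hab i).trans c3) hXD'
  refine ⟨f1, ?_⟩
  have f3 : (({g : Γ | ∃ x ∈ closure D, ds (cf σ m) x (g • x) ≤ l ∧
          FolF Γ (cf σ m) ε x (g • x) a b}.ncard : ℕ) : ℝ) ≤
      K * ((Nb + (1 + M * W) ^ J : ℕ) : ℝ) := by
    have f4 : (({g : Γ | ∃ x ∈ closure D, ds (cf σ m) x (g • x) ≤ l ∧
          FolF Γ (cf σ m) ε x (g • x) a b}.ncard : ℕ) : ℝ) ≤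
        ((N₁ + X.card * (X.card * (1 + M * W) ^ J) : ℕ) : ℝ) := by exact_mod_cast f2
    refine f4.trans ?_
    rw [hK, hNb]
    push_cast
    have g1 : (0 : ℝ) ≤ (n : ℝ) * N := by positivity
    have g2 : (0 : ℝ) ≤ (1 + (M : ℝ) * W) ^ J := by positivity
    have g3 : (0 : ℝ) ≤ (X.card : ℝ) * X.card * (n * N + N₁) := by positivity
    have g4 : (1 + (X.card : ℝ) * X.card) * ((n : ℝ) * N + N₁ + (1 + (M : ℝ) * W) ^ J) =
      ((n : ℝ) * N + (1 + (M : ℝ) * W) ^ J) + (X.card : ℝ) * X.card * (n * N + N₁) +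
        (N₁ + (X.card : ℝ) * (X.card * (1 + (M : ℝ) * W) ^ J)) := by ring
    rw [g4]
    linarith
  refine f3.trans ?_
  have hlogl : 0 ≤ Real.log l := Real.log_nonneg hl
  have hC0 : 0 < C := by linarith
  have hεC : ε * C ≤ 1 := by
    have e1 : 1 ≤ l ^ 2 := one_le_pow₀ hl
    have e2 : ε * C ≤ ε * (C * l ^ 2) :=
      mul_le_mul_of_nonneg_left (le_mul_of_one_le_right hC0.le e1) hε.le
    linarith
  have hlogε : 0 ≤ Real.log (1 / ε) := by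
    apply Real.log_nonneg
    rw [le_div_iff₀ hε]
    have : ε * 1 ≤ ε * C := mul_le_mul_of_nonneg_left hC hε.le
    linarith
  have hx : 0 ≤ l / Real.log (1 / ε) := div_nonneg (by linarith) hlogε
  have hZ : 1 ≤ (1 + l / Real.log (1 / ε)) * (1 + Real.log l) := by nlinarith
  have f5 := mul_le_mul_of_nonneg_left c9 (show 0 ≤ K by linarith)
  refine f5.trans ?_
  have f6 : K = Real.exp (Real.log K) := (Real.exp_log (by linarith)).symm
  rw [f6, ← Real.exp_add, Real.log_exp]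
  apply Real.exp_le_exp.2
  have f7 := le_mul_of_one_le_right hlogK hZ
  have f8 : (C + Real.log K) * (1 + l / Real.log (1 / ε)) * (1 + Real.log l) =
    C * (1 + l / Real.log (1 / ε)) * (1 + Real.log l) +
      Real.log K * ((1 + l / Real.log (1 / ε)) * (1 + Real.log l)) := by ring
  rw [f8]
  linarith

end BGM
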