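import Pool.Agent.LibTR29.Defs
import Pool.Agent.LibBR73.AN_Defs
import Pool.Agent.LibBR70.AB6
import Pool.Agent.LibFG33.Defs
import Pool.Agent.LibBGR.Defs

/-! BE35, beyond the Ehrenfest time: common definitions. -/

open MeasureTheory Set Filter Topology
open scoped ContDiff

namespace BE

open BGS BR

variable {Γ : Type} [Group Γ] [MulAction Γ Pl] {D : Set Pl}

/-- A uniform family of smooth one-parameter families of metrics of the surface. -/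
structure UF {ι : Type} (M : ι → ℝ → Mt Γ D) : Prop where
  smooth : ∀ i, ContDiff ℝ ∞ fun p : ℝ × Pl => (M i p.1).1.1 p.2
  bound : ∀ K : Set Pl, IsCompact K → ∀ k : ℕ, ∃ C : ℝ, ∀ i (σ : ℝ), ∀ z ∈ K,
    ‖iteratedFDeriv ℝ k (fun p : ℝ × Pl => (M i p.1).1.1 p.2) (σ, z)‖ ≤ C
  low : ∀ K : Set Pl, IsCompact K → ∃ c : ℝ, 0 < c ∧ ∀ i (σ : ℝ), ∀ z ∈ K,
    c ≤ ((M i σ).1.1 z).1 ∧ c ≤ dt ((M i σ).1.1 z)
  neg : ∃ a : ℝ, 0 < a ∧ ∀ i (σ : ℝ) z, curv (M i σ).1.1 z ≤ -a ^ 2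

/-- Functions of `(σ, x, y)`, `y` being moved by `g`, with polynomial bounds in the distance of
`x` and `g • y`. -/
def PB {ι F : Type} [NormedAddCommGroup F] [NormedSpace ℝ F] (M : ι → ℝ → Mt Γ D) (K : Set Pl)
    (f : ι → Γ → ℝ × Pl × Pl → F) : Prop :=
  (∀ i g, ContDiff ℝ ∞ (f i g)) ∧ ∀ k : ℕ, ∃ C : ℕ, ∀ i g (σ : ℝ), ∀ x ∈ K, ∀ y ∈ K,
    ‖iteratedFDeriv ℝ k (f i g) (σ, x, y)‖ ≤ C * (1 + ds (M i σ).1.1 x (g • y)) ^ C

/-- Functions of `(σ, x)`, for `g ≠ 1`, with polynomial bounds in the displacement of `x`. -/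
def PD {ι F : Type} [NormedAddCommGroup F] [NormedSpace ℝ F] (M : ι → ℝ → Mt Γ D) (K : Set Pl)
    (f : ι → Γ → ℝ × Pl → F) : Prop :=
  (∀ i g, g ≠ 1 → ContDiff ℝ ∞ (f i g)) ∧ ∀ k : ℕ, ∃ C : ℕ, ∀ i g, g ≠ 1 → ∀ σ : ℝ, ∀ x ∈ K,
    ‖iteratedFDeriv ℝ k (f i g) (σ, x)‖ ≤ C * (1 + ds (M i σ).1.1 x (g • x)) ^ C

/-- Smooth amplitudes with the reality condition and bounds up to the order `N + 10`. -/
structure AmpN (N : ℕ) (a : ℝ → ℂ) (ρ M : ℝ) : Prop where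
  smooth : ContDiff ℝ ∞ a
  conj : ∀ t, a (-t) = (starRingEnd ℂ) (a t)
  supp : ∀ t, ρ < |t| → a t = 0
  bound : ∀ k ≤ N + 10, ∀ t, ‖iteratedDeriv k a t‖ ≤ M

theorem AmpN.amp {N : ℕ} {a : ℝ → ℂ} {ρ M : ℝ} (h : AmpN N a ρ M) : Amp a ρ M where
  smooth := h.smooth
  conj := h.conj
  supp := h.supp
  bound := fun k hk t => h.bound k (by omega) t

/-- The term of `γ` in the trace of the parametrix of order `N`. -/
noncomputable def IKN (D : Set Pl) (m : Pl → Co) (N : ℕ) (q : ℝ → ℝ) (γ : Γ) : ℝ :=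
  ∫ x in D, KK (Gx m x) N q (Vx m x (γ • x)) * √(dt (m x))

/-- The symbol of the Abel transform `A_j` of `osc a τ`:
`Ab j (osc a τ) (r ^ 2) = Re (exp (-i τ r) al j a τ r)`. -/
noncomputable def al (j : ℕ) (a : ℝ → ℂ) (τ r : ℝ) : ℂ :=
  -((1 / (√Real.pi * Real.Gamma ((j : ℝ) + 1 / 2)) : ℝ) : ℂ) *
    ∫ u in Ioi (0 : ℝ), (-(Complex.I * τ) * a (r + u) + deriv a (r + u)) *
      (((u * (2 * r + u)) ^ ((j : ℝ) - 1 / 2) : ℝ) : ℂ) * Complex.exp (-(Complex.I * τ * u))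

/-- The complex kernel: `KK .. (osc a τ) .. = Re (exp (-i τ d) KC)`. -/
noncomputable def KC (m : Pl → Co) (N : ℕ) (a : ℝ → ℂ) (τ : ℝ) (x y : Pl) : ℂ :=
  ∑ j ∈ Finset.range (N + 1), ((UU (Gx m x) j (Vx m x y) : ℝ) : ℂ) * al j a τ (ds m x y)

/-- The integrand. -/
noncomputable def KE (m : Pl → Co) (N : ℕ) (a : ℝ → ℂ) (τ : ℝ) (g : Γ) (x : Pl) : ℂ :=
  Complex.exp (-(Complex.I * τ * ds m x (g • x))) * KC m N a τ x (g • x)

/-- The contribution of the class of `g` with the axis `(x0, v0)` and primitive length `l0`. -/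
noncomputable def ZZ (m : Pl → Co) (N : ℕ) (a : ℝ → ℂ) (τ : ℝ) (g : Γ) (x0 v0 : Pl) (l0 : ℝ) :
    ℂ :=
  ∫ s in (0 : ℝ)..l0, ∫ y : ℝ, KE m N a τ g (Fm m x0 v0 (s, y)) *
    JA m (gfl m s (x0, v0)).1 (rot (gfl m s (x0, v0)).2) y

/-- The cut-off on the line: one on `[-1, 1]`, zero outside `[-2, 2]`. -/
noncomputable def cut : ContDiffBump (0 : ℝ) := ⟨1, 2, by norm_num, by norm_num⟩

/-- The contribution of the class of `g` for the metric `m1`, localised to the distance `2 δ` of the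
axis `(x0, v0)` of the metric `m0`. -/
noncomputable def ZL (m0 m1 : Pl → Co) (δ : ℝ) (N : ℕ) (a : ℝ → ℂ) (τ : ℝ) (g : Γ) (x0 v0 : Pl)
    (l0 : ℝ) : ℂ :=
  ∫ s in (0 : ℝ)..l0, ∫ y : ℝ, ((cut (y / δ) : ℝ) : ℂ) * KE m1 N a τ g (Fm m0 x0 v0 (s, y)) *
    ((√(dt (m1 (Fm m0 x0 v0 (s, y)))) * |(fderiv ℝ (Fm m0 x0 v0) (s, y)).det| : ℝ) : ℂ)

/-! ### The random metrics -/

/-- The bump function of the unit cell: one on the cell. -/
noncomputable def b1 : ContDiffBump (((1 / 2 : ℝ), (1 / 2 : ℝ)) : Pl) :=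
  ⟨1 / 2, 1, by norm_num, by norm_num⟩

/-- The bump function of the cell with corner `p / R` and side `1 / R`. -/
noncomputable def bb (R : ℕ) (p : ℤ × ℤ) (z : Pl) : ℝ :=
  b1 ((R * z.1 - p.1, R * z.2 - p.2) : Pl)

/-- A bounded smooth function that is the identity on `[-1, 1]`. -/
noncomputable def th (t : ℝ) : ℝ := t * cut t

/-- The law of one coefficient: a smooth density supported in `[-1, 1]`. -/
noncomputable def bn : ContDiffBump (0 : ℝ) := ⟨1 / 2, 1, by norm_num, by norm_num⟩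

noncomputable def nu : Measure ℝ :=
  volume.withDensity fun t => ENNReal.ofReal (bn.normed volume t)

/-- The coefficients. -/
abbrev Om : Type := ℕ × (ℤ × ℤ) → ℝ

/-- The size of the coefficients of the scale `2 ^ (-j)`. -/
noncomputable def wj (j : ℕ) : ℝ := Real.exp (-(j : ℝ) ^ (3 / 2 : ℝ))

/-- The field of the scale `2 ^ (-j)`. -/
noncomputable def phj (Γ : Type) [Group Γ] [MulAction Γ Pl] (L0 j : ℕ) (ξ : ℤ × ℤ → ℝ) (z : Pl) :
    ℝ :=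
  ∑ p ∈ grid L0 (2 ^ j), th (ξ p) * per Γ (bb (2 ^ j) p) z

/-- The random function. -/
noncomputable def phi (Γ : Type) [Group Γ] [MulAction Γ Pl] (L0 : ℕ) (ξ : Om) (z : Pl) : ℝ :=
  ∑' j : ℕ, wj j * phj Γ L0 j (fun p => ξ (j, p)) z

/-- The metric `q exp (h) m` with total area one. -/
noncomputable def cf (D : Set Pl) (m : Pl → Co) (h : Pl → ℝ) (z : Pl) : Co :=
  ((∫ w in D, Real.exp (h w) * √(dt (m w)))⁻¹ * Real.exp (h z)) • m z

/-- The scale used in the block `T = 2 ^ k`. -/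
noncomputable def js (k : ℕ) : ℕ := ⌊(k : ℝ) ^ (2 / 3 : ℝ) / 2⌋₊

/-- Replace the coefficients of the scale `j`. -/
def upd (j : ℕ) (ξ : Om) (η : ℤ × ℤ → ℝ) : Om := fun q => if q.1 = j then η q.2 else ξ q

end BE
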